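import Pool.Agent.TH205.Hilb.CombRows

/-!
# Case A: at most `C` full rows
-/

namespace Pool.Agent.TH205.Hilb.Comb

variable {L : Finset (ℕ × ℕ × ℕ)}

/-- triangular number as a sum -/
def tri (i : ℕ) : ℕ := ∑ a ∈ Finset.range i, (i - a)

lemma two_tri (i : ℕ) : (2 : ℤ) * tri i = i * (i + 1) := by
  rw [tri, sum_sub i i le_rfl]; ring

/-- number of monomials of degree `k` with first exponent `< c` -/
def NN (k c : ℕ) : ℕ := ∑ a ∈ Finset.range c, (k + 1 - a)

lemma two_NN (k c : ℕ) (h : c ≤ k + 1) : (2 : ℤ) * NN k c = c * (2 * k + 3 - c) := by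
  rw [NN, sum_sub c (k + 1) h]; push_cast; ring

lemma sum_tet (m : ℕ) : (24 : ℤ) * ∑ i ∈ Finset.Ico 1 (m + 1), (tet i : ℤ) =
    m * (m + 1) * (m + 2) * (m + 3) := by
  induction m with
  | zero => simp
  | succ m ih =>
    rw [Finset.sum_Ico_succ_top (by omega), mul_add, ih]
    have := six_tet (m + 1)
    push_cast at this ⊢
    linear_combination 4 * this

lemma sum_lin (n C k m d : ℕ) :
    (2 : ℤ) * ∑ i ∈ Finset.Ico m (m + d), ((n : ℤ) - C * (k - i)) =
      2 * d * n - C * ((k - m) * (k - m + 1) - (k - (m + d)) * (k - (m + d) + 1)) := by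
  induction d with
  | zero => simp
  | succ d ih =>
    rw [← add_assoc, Finset.sum_Ico_succ_top (by omega), mul_add, ih]
    push_cast
    ring

lemma sum_tri (m d : ℕ) :
    (6 : ℤ) * ∑ i ∈ Finset.Ico m (m + d), (tri i : ℤ) =
      (m + d - 1) * (m + d) * (m + d + 1) - (m - 1) * m * (m + 1) := by
  induction d with
  | zero => simp
  | succ d ih =>
    rw [← add_assoc, Finset.sum_Ico_succ_top (by omega), mul_add, ih]
    have := two_tri (m + d)
    push_cast at this ⊢
    linear_combination 3 * this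

/-- Passing from the rows `< p` to the rows `≤ k - 2`. -/
lemma extend_sum {p k : ℕ} (hp1 : 1 ≤ p) (hpk : p + 1 ≤ k) (l : ℕ) (q : ℕ → ℕ) (b : ℕ → ℤ)
    (hq : ∀ i, 1 ≤ i → i < p → b i ≤ q i) (hb : ∀ i, p ≤ i → i < k - 1 → b i ≤ l) :
    ((p : ℤ) - 1) * l - ∑ i ∈ Finset.range p, (q i : ℤ) ≤
      ((k : ℤ) - 2) * l - ∑ i ∈ Finset.Ico 1 (k - 1), b i := by
  have h1 : ∑ i ∈ Finset.Ico 1 p, (q i : ℤ) ≤ ∑ i ∈ Finset.range p, (q i : ℤ) := by
    rw [Finset.range_eq_Ico]
    apply Finset.sum_le_sum_of_subset_of_nonneg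
    · intro i hi; rw [Finset.mem_Ico] at hi ⊢; omega
    · intro i _ _; positivity
  have h2 : ∑ i ∈ Finset.Ico 1 p, b i ≤ ∑ i ∈ Finset.Ico 1 p, (q i : ℤ) := by
    apply Finset.sum_le_sum
    intro i hi; rw [Finset.mem_Ico] at hi; exact hq i hi.1 hi.2
  have h3 : ∑ i ∈ Finset.Ico 1 (k - 1), b i =
      ∑ i ∈ Finset.Ico 1 p, b i + ∑ i ∈ Finset.Ico p (k - 1), b i :=
    (Finset.sum_Ico_consecutive _ hp1 (by omega)).symm
  have h4 : ∑ i ∈ Finset.Ico p (k - 1), b i ≤ ∑ i ∈ Finset.Ico p (k - 1), (l : ℤ) := by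
    apply Finset.sum_le_sum
    intro i hi; rw [Finset.mem_Ico] at hi; exact hb i hi.1 hi.2
  rw [Finset.sum_const, Nat.card_Ico, nsmul_eq_mul] at h4
  have h5 : ((k - 1 - p : ℕ) : ℤ) = (k : ℤ) - 1 - p := by omega
  rw [h5] at h4
  rw [h3]
  nlinarith

lemma tet_mono {i k : ℕ} (h : i ≤ k) : tet i ≤ tet k := Nat.choose_le_choose 3 (by omega)

lemma tet_lt {i k : ℕ} (h : i < k) : tet i + 1 ≤ tet k := by
  have h1 : tet (i + 1) = tet i + (i + 2).choose 2 := by
    rw [tet, tet, Nat.choose_succ_succ' (i + 2) 2, add_comm]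
  have h2 : 1 ≤ (i + 2).choose 2 := Nat.choose_pos (by omega)
  have h3 := tet_mono (show i + 1 ≤ k by omega)
  omega

lemma card_E {p k : ℕ} (hp : (p, 0, 0) ∉ L) (hpk : p < k) :
    L.card + 1 ≤ tet k + (L.filter (fun w => k ≤ dg w)).card := by
  classical
  have h1 : (L.filter (fun w => ¬ k ≤ dg w)).card + 1 ≤ tet k := by
    have h2 : insert (p, 0, 0) (L.filter (fun w => ¬ k ≤ dg w)) ⊆ spx k := by
      intro w hw
      rw [mem_spx]
      rcases Finset.mem_insert.1 hw with rfl | hw
      · simp only [dg]; omega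
      · have := (Finset.mem_filter.1 hw).2; omega
    have h3 := Finset.card_le_card h2
    rw [card_spx, Finset.card_insert_of_notMem] at h3
    · exact h3
    · intro h; exact hp (Finset.mem_filter.1 h).1
  have h4 := Finset.card_filter_add_card_filter_not (s := L) (fun w => k ≤ dg w)
  omega

/-- the row bounds in case A -/
noncomputable def RA (k C f c n : ℕ) (i : ℕ) : ℤ :=
  if i < f then 0 else if i < c then tri i + f else if i < C then 0 else (n : ℤ) - C * (k - i)

lemma rows_A (hD : Dom L) {p k C f c n : ℕ} (hpos : ∀ i < p, (i, 0, 0) ∈ L)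
    (hpk : p + 1 ≤ k)
    (hf : ∀ a < f, (a, k - a, 0) ∈ L) (hfp : f ≤ p) (hf' : (f, k - f, 0) ∉ L)
    (hc : ∀ a < c, (a, 0, k - a) ∈ L) (hcp : c ≤ p) (hc' : (c, 0, k - c) ∉ L)
    (hn : n ≤ (L.filter (fun w => k ≤ dg w)).card)
    (hnC : (2 : ℤ) * n ≤ C * (2 * k + 3 - C)) (i : ℕ) (hi : i < p) :
    ∃ y z : ℕ, (i, y, z) ∉ L ∧ (tet i : ℤ) + RA k C f c n i ≤ Q L y z := by
  classical
  have hp := hpos i hi
  by_cases h1 : i < f
  · refine ⟨aL L i, 0, aL_spec i, ?_⟩
    rw [RA, if_pos h1, add_zero]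
    exact_mod_cast row_any hD hp
  have hnf : (i, k - i, 0) ∉ L := by
    intro h
    exact hf' (hD _ _ _ _ _ _ h (by omega) (by omega) (by omega))
  by_cases h2 : i < c
  · obtain ⟨y, z, h3, h4⟩ := row_meets hD (by omega) (hc i h2) hnf hf (by omega)
    refine ⟨y, z, h3, ?_⟩
    rw [RA, if_neg h1, if_pos h2]
    have : ((tet i + (tri i + f) : ℕ) : ℤ) ≤ (Q L y z : ℤ) := by exact_mod_cast h4
    push_cast at this
    exact this
  have hnm : (i, 0, k - i) ∉ L := by
    intro h
    exact hc' (hD _ _ _ _ _ _ h (by omega) (by omega) (by omega))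
  obtain ⟨y, z, h3, h4, h5, h6, h7⟩ := row_nonfull hD (show i ≤ k by omega) hp hnf
  have hy : y = 0 := by
    by_contra h
    exact hnm (by simpa using h6 0 (by omega))
  subst hy
  refine ⟨0, z, h3, ?_⟩
  rw [RA, if_neg h1, if_neg h2]
  by_cases h8 : i < C
  · rw [if_pos h8, add_zero]
    have := h7 ∅ (by simp)
    simpa using this
  · rw [if_neg h8]
    have h9 := h7 (L.filter (fun w => k ≤ dg w ∧ k - i ≤ w.2.2)) (by
      intro w hw
      rw [Finset.mem_filter] at hw
      exact ⟨hw.1, Nat.zero_le _, by omega, hw.2.1⟩)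
    have h10 := pigeon hD (show i < k by omega) hnm hn (show C ≤ i + 1 by omega) hnC
    have h11 : ((tet i + (L.filter (fun w => k ≤ dg w ∧ k - i ≤ w.2.2)).card : ℕ) : ℤ) ≤ Q L 0 z := by
      exact_mod_cast h9
    push_cast at h11
    linarith

lemma RA_nonneg {k C f c n i : ℕ} (h : i < C) : 0 ≤ RA k C f c n i := by
  rw [RA]
  split_ifs <;> positivity

theorem caseA (hD : Dom L) {p k C f c : ℕ} (hpos : ∀ i < p, (i, 0, 0) ∈ L)
    (hp : (p, 0, 0) ∉ L) (hp1 : 1 ≤ p) (hpk : p + 1 ≤ k)
    (hf : ∀ a < f, (a, k - a, 0) ∈ L) (hfp : f ≤ p) (hf' : (f, k - f, 0) ∉ L)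
    (hc : ∀ a < c, (a, 0, k - a) ∈ L) (hcp : c ≤ p) (hc' : (c, 0, k - c) ∉ L) (hfc : f ≤ c)
    (hfC : f ≤ C) (hC1 : 1 ≤ C) (hCk : C + 2 ≤ k)
    (he1 : tet k ≤ L.card) (he2 : L.card < tet k + NN k C) :
    ∃ y z : ℕ → ℕ, (∀ i < p, (i, y i, z i) ∉ L) ∧
      8 * (((p : ℤ) - 1) * L.card - ∑ i ∈ Finset.range p, (Q L (y i) (z i) : ℤ)) <
        ((k : ℤ) - 1) * k * (k + 1) * (k + 2) +
          4 * (C - 1) * (k ^ 2 - k - 3 + 3 * (C - 1)) := by
  classical
  obtain ⟨e, he⟩ := Nat.exists_eq_add_of_le he1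
  have hn : e + 1 ≤ (L.filter (fun w => k ≤ dg w)).card := by
    have := card_E hp (show p < k by omega)
    omega
  have h2N := two_NN k C (by omega)
  have hnC : (2 : ℤ) * ((e + 1 : ℕ) : ℤ) ≤ C * (2 * k + 3 - C) := by
    rw [← h2N]
    have : e + 1 ≤ NN k C := by omega
    exact_mod_cast Nat.mul_le_mul_left 2 this
  have hrows := rows_A hD hpos hpk hf hfp hf' hc hcp hc' hn hnC
  choose! y z hyz hQ using hrows
  refine ⟨y, z, hyz, ?_⟩
  have hext := extend_sum hp1 hpk L.card (fun i => Q L (y i) (z i))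
    (fun i => (tet i : ℤ) + RA k C f c (e + 1) i) (fun i _ hi => hQ i hi) (by
      intro i hi hik
      have h1 := tet_lt (show i < k by omega)
      have h2 : ((tet i : ℤ)) + 1 ≤ tet k := by exact_mod_cast h1
      have h3 : (L.card : ℤ) = tet k + e := by rw [he]; push_cast; ring
      rw [RA, if_neg (by omega), if_neg (by omega), h3]
      split_ifs
      · linarith [show (0 : ℤ) ≤ e by positivity]
      · have h4 : (0 : ℤ) ≤ C * ((k : ℤ) - i) := by
          apply mul_nonneg (by positivity)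
          have : i < k := by omega
          omega
        push_cast
        linarith)
  rw [Finset.sum_add_distrib] at hext
  have hst := sum_tet (k - 2)
  have hk2 : k - 2 + 1 = k - 1 := by omega
  rw [hk2] at hst
  have hk2' : ((k - 2 : ℕ) : ℤ) = (k : ℤ) - 2 := by omega
  rw [hk2'] at hst
  have h6 := six_tet k
  have hl : (L.card : ℤ) = tet k + e := by rw [he]; push_cast; ring
  -- it remains to bound the sum of `RA`
  have key : 2 * ((k : ℤ) - 2) * e < 2 * ∑ i ∈ Finset.Ico 1 (k - 1), RA k C f c (e + 1) i +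
      k * (k + 1) + (C - 1) * (k ^ 2 - k - 6 + 3 * C) := by
    push_cast at hnC
    obtain ⟨m, hm⟩ := Nat.exists_eq_add_of_le (show C + 1 ≤ k - 1 by omega)
    by_cases hcC : c ≤ C
    · -- case A1
      have hs1 : ∑ i ∈ Finset.Ico C (k - 1), (((e + 1 : ℕ) : ℤ) - C * (k - i)) ≤
          ∑ i ∈ Finset.Ico 1 (k - 1), RA k C f c (e + 1) i := by
        rw [← Finset.sum_Ico_consecutive _ hC1 (show C ≤ k - 1 by omega)]
        have h1 : 0 ≤ ∑ i ∈ Finset.Ico 1 C, RA k C f c (e + 1) i := by
          apply Finset.sum_nonneg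
          intro i hi
          exact RA_nonneg (Finset.mem_Ico.1 hi).2
        have h2 : ∑ i ∈ Finset.Ico C (k - 1), (((e + 1 : ℕ) : ℤ) - C * (k - i)) =
            ∑ i ∈ Finset.Ico C (k - 1), RA k C f c (e + 1) i := by
          apply Finset.sum_congr rfl
          intro i hi
          rw [Finset.mem_Ico] at hi
          rw [RA, if_neg (by omega), if_neg (by omega), if_neg (by omega)]
        rw [h2]; linarith
      have hs2 := sum_lin (e + 1) C k C (m + 1)
      have hk1 : C + (m + 1) = k - 1 := by omega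
      rw [hk1] at hs2
      have hkm : (k : ℤ) = C + m + 2 := by omega
      push_cast at hs1 hs2
      have hCm : (0 : ℤ) ≤ (C : ℤ) - 1 := by omega
      have hprod := mul_le_mul_of_nonneg_left hnC hCm
      rw [hkm] at hs1 hs2 hprod ⊢
      linarith
    · push Not at hcC
      obtain ⟨d, hd⟩ := Nat.exists_eq_add_of_le (show C + 1 ≤ c by omega)
      obtain ⟨m', hm'⟩ := Nat.exists_eq_add_of_le (show c ≤ k - 1 by omega)
      have htail : ∑ i ∈ Finset.Ico c (k - 1), RA k C f c (e + 1) i =
          ∑ i ∈ Finset.Ico c (k - 1), (((e + 1 : ℕ) : ℤ) - C * (k - i)) := by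
        apply Finset.sum_congr rfl
        intro i hi
        rw [Finset.mem_Ico] at hi
        rw [RA, if_neg (by omega), if_neg (by omega), if_neg (by omega)]
      have hs2 := sum_lin (e + 1) C k c m'
      rw [← hm'] at hs2
      have hkm : (k : ℤ) = C + d + m' + 2 := by omega
      have hcd : (c : ℤ) = C + d + 1 := by omega
      have hcm : (0 : ℤ) ≤ (c : ℤ) - 1 := by omega
      have hprod := mul_le_mul_of_nonneg_left hnC hcm
      have hd0 : (0 : ℤ) ≤ d := by positivity
      have hm0 : (0 : ℤ) ≤ m' := by positivity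
      have hC0 : (1 : ℤ) ≤ C := by exact_mod_cast hC1
      by_cases hfC' : f < C
      · have hhead : ∑ i ∈ Finset.Ico (C - 1) c, (tri i : ℤ) ≤
            ∑ i ∈ Finset.Ico 1 c, RA k C f c (e + 1) i := by
          have h1 : ∑ i ∈ Finset.Ico (C - 1) c, (tri i : ℤ) =
              ∑ i ∈ (Finset.Ico (C - 1) c).filter (fun i => 1 ≤ i), (tri i : ℤ) := by
            symm
            apply Finset.sum_filter_of_ne
            intro i _ h
            by_contra h0
            have : i = 0 := by omega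
            subst this
            simp [tri] at h
          rw [h1]
          refine le_trans (Finset.sum_le_sum (g := fun i => RA k C f c (e + 1) i) ?_)
            (Finset.sum_le_sum_of_subset_of_nonneg ?_ ?_)
          · intro i hi
            rw [Finset.mem_filter, Finset.mem_Ico] at hi
            rw [RA, if_neg (by omega), if_pos (by omega)]
            linarith [show (0 : ℤ) ≤ f by positivity]
          · intro i hi
            rw [Finset.mem_filter, Finset.mem_Ico] at hi
            rw [Finset.mem_Ico]; omega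
          · intro i hi _
            rw [Finset.mem_Ico] at hi
            rw [RA]
            split_ifs
            · exact le_rfl
            · positivity
            · exact absurd hi.2 ‹_›
            · exact absurd hi.2 ‹_›
        have hs3 := sum_tri (C - 1) (d + 2)
        have hc2 : C - 1 + (d + 2) = c := by omega
        rw [hc2] at hs3
        have hC2 : ((C - 1 : ℕ) : ℤ) = (C : ℤ) - 1 := by omega
        rw [← Finset.sum_Ico_consecutive _ (show 1 ≤ c by omega) (show c ≤ k - 1 by omega), htail]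
        push_cast at hs2 hs3 ⊢
        rw [hC2] at hs3
        have ht : (0 : ℤ) ≤ ((C : ℤ) - d - 1) * ((C : ℤ) - d - 2) := by
          rcases le_or_gt ((C : ℤ)) (d + 1) with h | h
          · exact mul_nonneg_of_nonpos_of_nonpos (by omega) (by omega)
          · exact mul_nonneg (by omega) (by omega)
        have hd3 : (3 - (d : ℤ)) * (d + 1) * (d + 2) ≤ 12 := by
          rcases Nat.lt_or_ge d 3 with h | h
          · interval_cases d <;> norm_num
          · have : (3 : ℤ) ≤ d := by exact_mod_cast h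
            nlinarith [mul_nonneg (mul_nonneg (sub_nonneg.2 this) (by positivity : (0:ℤ) ≤ d + 1))
              (by positivity : (0:ℤ) ≤ (d:ℤ) + 2)]
        rw [hcd, hkm] at hs2 hprod
        rw [hkm]
        linarith
      · have hfC2 : f = C := by omega
        have hhead : ∑ i ∈ Finset.Ico C c, ((tri i : ℤ) + C) ≤
            ∑ i ∈ Finset.Ico 1 c, RA k C f c (e + 1) i := by
          refine le_trans (Finset.sum_le_sum (g := fun i => RA k C f c (e + 1) i) ?_)
            (Finset.sum_le_sum_of_subset_of_nonneg ?_ ?_)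
          · intro i hi
            rw [Finset.mem_Ico] at hi
            rw [RA, if_neg (by omega), if_pos (by omega), hfC2]
          · intro i hi
            rw [Finset.mem_Ico] at hi ⊢; omega
          · intro i hi _
            rw [Finset.mem_Ico] at hi
            rw [RA]
            split_ifs
            · exact le_rfl
            · positivity
            · exact absurd hi.2 ‹_›
            · exact absurd hi.2 ‹_›
        have hs3 := sum_tri C (d + 1)
        have hc2 : C + (d + 1) = c := by omega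
        rw [hc2] at hs3
        rw [Finset.sum_add_distrib, Finset.sum_const, Nat.card_Ico, nsmul_eq_mul] at hhead
        have hC2 : ((c - C : ℕ) : ℤ) = (d : ℤ) + 1 := by omega
        rw [hC2] at hhead
        rw [← Finset.sum_Ico_consecutive _ (show 1 ≤ c by omega) (show c ≤ k - 1 by omega), htail]
        push_cast at hs2 hs3 ⊢
        have hd3 : (0 : ℤ) ≤ (d : ℤ) * (d + 1) * (d + 2) := by positivity
        rw [hcd, hkm] at hs2 hprod
        rw [hkm]
        linarith
  have h7 : ((k : ℤ) - 2) * (6 * tet k) = ((k : ℤ) - 2) * (k * (k + 1) * (k + 2)) := by rw [h6]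
  rw [hl] at hext ⊢
  linarith

end Pool.Agent.TH205.Hilb.Comb
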