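import Pool.Agent.TH205.Hilb.CaseA

/-!
# Case B: more than `C` full rows, and the trivial case
-/

namespace Pool.Agent.TH205.Hilb.Comb

variable {L : Finset (ℕ × ℕ × ℕ)}

lemma card_spx_filter (m f : ℕ) :
    ((spx m).filter (fun w => w.1 < f)).card + tet (m - f) = tet m := by
  classical
  have h1 := Finset.card_filter_add_card_filter_not (s := spx m) (fun w => w.1 < f)
  have h2 : ((spx m).filter (fun w => ¬ w.1 < f)).card = tet (m - f) := by
    rw [← card_spx (m - f)]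
    symm
    apply Finset.card_bij (fun w _ => ((w.1 + f, w.2.1, w.2.2) : ℕ × ℕ × ℕ))
    · rintro ⟨a, b, e⟩ hw
      rw [mem_spx] at hw
      rw [Finset.mem_filter, mem_spx]
      simp only [dg] at hw ⊢
      omega
    · rintro ⟨a, b, e⟩ _ ⟨a', b', e'⟩ _ h
      simp only [Prod.mk.injEq] at h ⊢
      omega
    · rintro ⟨a, b, e⟩ hw
      rw [Finset.mem_filter, mem_spx] at hw
      simp only [dg] at hw
      refine ⟨(a - f, b, e), ?_, ?_⟩
      · rw [mem_spx]; simp only [dg]; omega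
      · show ((a - f + f, b, e) : ℕ × ℕ × ℕ) = (a, b, e)
        rw [Nat.sub_add_cancel (by omega)]
  rw [card_spx] at h1
  omega

lemma row_B (hD : Dom L) {i k f : ℕ} (hf : ∀ a < f, (a, k - a, 0) ∈ L) (hfi : f ≤ i)
    (hp : (i, 0, 0) ∈ L) (hak : aL L i ≤ k - i) (hik : i ≤ k) :
    tet (k - aL L i + 1) + tet (i - f) ≤ Q L (aL L i) 0 + tet (k - aL L i + 1 - f) := by
  classical
  set a := aL L i with ha
  have hinj : Function.Injective (fun w : ℕ × ℕ × ℕ => ((w.1, w.2.1 + a, w.2.2) : ℕ × ℕ × ℕ)) := by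
    rintro ⟨x, b, e⟩ ⟨x', b', e'⟩ h
    simp only [Prod.mk.injEq] at h ⊢
    omega
  have hinj2 : Function.Injective
      (fun w : ℕ × ℕ × ℕ => ((w.1 + f, w.2.1 + a, w.2.2) : ℕ × ℕ × ℕ)) := by
    rintro ⟨x, b, e⟩ ⟨x', b', e'⟩ h
    simp only [Prod.mk.injEq] at h ⊢
    omega
  have hdisj : Disjoint (((spx (k - a + 1)).filter (fun w => w.1 < f)).image
      (fun w : ℕ × ℕ × ℕ => ((w.1, w.2.1 + a, w.2.2) : ℕ × ℕ × ℕ)))
      ((spx (i - f)).image (fun w : ℕ × ℕ × ℕ => ((w.1 + f, w.2.1 + a, w.2.2) : ℕ × ℕ × ℕ))) := by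
    rw [Finset.disjoint_left]
    intro w h1 h2
    obtain ⟨⟨x, b, e⟩, h3, rfl⟩ := Finset.mem_image.1 h1
    obtain ⟨⟨x', b', e'⟩, h4, h5⟩ := Finset.mem_image.1 h2
    rw [Finset.mem_filter] at h3
    simp only [Prod.mk.injEq] at h5 h3
    omega
  have h1 := le_Q hD (y := a) (z := 0) (((((spx (k - a + 1)).filter (fun w => w.1 < f)).image
      (fun w : ℕ × ℕ × ℕ => ((w.1, w.2.1 + a, w.2.2) : ℕ × ℕ × ℕ)))) ∪
      ((spx (i - f)).image (fun w : ℕ × ℕ × ℕ => ((w.1 + f, w.2.1 + a, w.2.2) : ℕ × ℕ × ℕ)))) (by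
    intro w hw
    rcases Finset.mem_union.1 hw with hw | hw
    · obtain ⟨⟨x, b, e⟩, h3, rfl⟩ := Finset.mem_image.1 hw
      rw [Finset.mem_filter, mem_spx] at h3
      simp only [dg] at h3
      refine ⟨?_, by simp, by simp⟩
      exact hD _ _ _ _ _ _ (hf x h3.2) (by first | omega | (dsimp only [dg] at *; omega)) (by first | omega | (dsimp only [dg] at *; omega)) (by first | omega | (dsimp only [dg] at *; omega))
    · obtain ⟨⟨x, b, e⟩, h3, rfl⟩ := Finset.mem_image.1 hw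
      rw [mem_spx] at h3
      simp only [dg] at h3
      refine ⟨?_, by simp, by simp⟩
      exact mem_of_lt_aL hD (i := i) (by first | omega | (dsimp only [dg] at *; omega)) (by first | omega | (dsimp only [dg] at *; omega)) hp)
  rw [Finset.card_union_of_disjoint hdisj, Finset.card_image_of_injective _ hinj,
    Finset.card_image_of_injective _ hinj2, card_spx] at h1
  have h2 := card_spx_filter (k - a + 1) f
  omega

lemma size_B (hD : Dom L) {p k f : ℕ} (hpos : ∀ i < p, (i, 0, 0) ∈ L)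
    (hf : ∀ a < f, (a, k - a, 0) ∈ L) :
    tet (k + 1) + ∑ i ∈ Finset.Ico f p, tri (aL L i) ≤ L.card + tet (k + 1 - f) := by
  classical
  let A0 := (spx (k + 1)).filter (fun w => w.1 < f)
  let B0 : Finset (ℕ × ℕ × ℕ) :=
    ((Finset.Ico f p).sigma (fun i => (Finset.range (aL L i)).sigma
      (fun β => Finset.range (aL L i - β)))).image (fun q => (q.1, q.2.1, q.2.2))
  have hB0 : B0.card = ∑ i ∈ Finset.Ico f p, tri (aL L i) := by
    rw [Finset.card_image_of_injOn, Finset.card_sigma]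
    · apply Finset.sum_congr rfl
      intro i _
      rw [Finset.card_sigma, tri]
      simp
    · rintro ⟨i, β, γ⟩ _ ⟨i', β', γ'⟩ _ h
      simp only [Prod.mk.injEq] at h
      obtain ⟨rfl, rfl, rfl⟩ := h
      rfl
  have hdisj : Disjoint A0 B0 := by
    rw [Finset.disjoint_left]
    intro w h1 h2
    obtain ⟨⟨i, β, γ⟩, h3, rfl⟩ := Finset.mem_image.1 h2
    simp only [Finset.mem_sigma, Finset.mem_Ico] at h3
    have := (Finset.mem_filter.1 h1).2
    simp only at this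
    omega
  have hsub : A0 ∪ B0 ⊆ L := by
    intro w hw
    rcases Finset.mem_union.1 hw with hw | hw
    · obtain ⟨x, b, e⟩ := w
      rw [Finset.mem_filter, mem_spx] at hw
      simp only [dg] at hw
      exact hD _ _ _ _ _ _ (hf x hw.2) (by omega) (by omega) (by omega)
    · obtain ⟨⟨i, β, γ⟩, h3, rfl⟩ := Finset.mem_image.1 hw
      simp only [Finset.mem_sigma, Finset.mem_Ico, Finset.mem_range] at h3
      exact mem_of_lt_aL hD (i := i) (by first | omega | (dsimp only [dg] at *; omega)) le_rfl (hpos i (by first | omega | (dsimp only [dg] at *; omega)))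
  have h1 := Finset.card_le_card hsub
  rw [Finset.card_union_of_disjoint hdisj, hB0] at h1
  have h2 : A0.card + tet (k + 1 - f) = tet (k + 1) := card_spx_filter (k + 1) f
  omega

lemma aL_anti (hD : Dom L) {i : ℕ} (hp : (i + 1, 0, 0) ∈ L) : aL L (i + 1) < aL L i := by
  have h1 : 0 < aL L (i + 1) := (mem_iff_lt_aL hD (i + 1) 0).1 hp
  have h2 : (i + 1, aL L (i + 1) - 1, 0) ∈ L := (mem_iff_lt_aL hD (i + 1) _).2 (by omega)
  have h3 : (i, aL L (i + 1), 0) ∈ L := hD _ _ _ _ _ _ h2 (by omega) (by omega) (by omega)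
  exact (mem_iff_lt_aL hD i _).1 h3

lemma aL_strict (hD : Dom L) {p i j : ℕ} (hpos : ∀ i < p, (i, 0, 0) ∈ L) (hij : i < j)
    (hj : j < p) : aL L j < aL L i := by
  obtain ⟨d, rfl⟩ := Nat.exists_eq_add_of_lt hij
  clear hij
  induction d with
  | zero => exact aL_anti hD (hpos _ hj)
  | succ d ih =>
    have h1 := ih (by omega)
    have h2 : aL L (i + d + 1 + 1) < aL L (i + d + 1) := aL_anti hD (hpos _ (by omega))
    have e : i + (d + 1) + 1 = i + d + 1 + 1 := by ring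
    rw [e]; omega

lemma sum_phi (κ m : ℕ) : (6 : ℤ) * ∑ a ∈ Finset.range m, ((a : ℤ) * (κ - a)) =
    3 * κ * m * (m - 1) - (m - 1) * m * (2 * m - 1) := by
  induction m with
  | zero => simp
  | succ m ih =>
    rw [Finset.sum_range_succ, mul_add, ih]
    push_cast; ring

lemma sum_aL (hD : Dom L) {p f κ : ℕ} (hpos : ∀ i < p, (i, 0, 0) ∈ L)
    (ha : ∀ i, f ≤ i → i < p → aL L i ≤ κ) :
    (6 : ℤ) * ∑ i ∈ Finset.Ico f p, ((aL L i : ℤ) * (κ - aL L i)) ≤ (κ - 1) * κ * (κ + 1) := by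
  classical
  have h1 : ∑ i ∈ Finset.Ico f p, ((aL L i : ℤ) * (κ - aL L i)) =
      ∑ a ∈ (Finset.Ico f p).image (aL L), ((a : ℤ) * (κ - a)) := by
    rw [Finset.sum_image]
    intro i hi j hj h
    simp only [Finset.coe_Ico, Set.mem_Ico] at hi hj
    rcases lt_trichotomy i j with hij | hij | hij
    · have := aL_strict hD hpos hij hj.2; omega
    · exact hij
    · have := aL_strict hD hpos hij hi.2; omega
  have h2 : ∑ a ∈ (Finset.Ico f p).image (aL L), ((a : ℤ) * (κ - a)) ≤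
      ∑ a ∈ Finset.range (κ + 1), ((a : ℤ) * (κ - a)) := by
    apply Finset.sum_le_sum_of_subset_of_nonneg
    · intro a h
      obtain ⟨i, hi, rfl⟩ := Finset.mem_image.1 h
      rw [Finset.mem_Ico] at hi
      rw [Finset.mem_range]
      have := ha i hi.1 hi.2
      omega
    · intro a h _
      rw [Finset.mem_range] at h
      apply mul_nonneg (by positivity)
      omega
  have h3 := sum_phi κ (κ + 1)
  push_cast at h3
  rw [h1]
  nlinarith

lemma gP (P j : ℕ) : ((P : ℤ) + j - 1) * (P + j) * (P + j + 1) * (P + j + 2) ≤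
    (P - 1) * P * (P + 1) * (P + 2) + 4 * j * (P + j) * (P + j + 1) * (P + j + 2) := by
  induction j with
  | zero => simp
  | succ j ih =>
    push_cast
    have h : (0 : ℤ) ≤ (P : ℤ) * j + P + j + j * j := by positivity
    nlinarith [mul_nonneg (mul_nonneg (by positivity : (0:ℤ) ≤ P + j + 1)
      (by positivity : (0:ℤ) ≤ (P:ℤ) + j + 2)) (by positivity : (0:ℤ) ≤ (j:ℤ) + 1)]

lemma sum_tet' (m : ℕ) : (24 : ℤ) * ∑ i ∈ Finset.range m, (tet i : ℤ) =
    (m - 1) * m * (m + 1) * (m + 2) := by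
  induction m with
  | zero => simp
  | succ m ih =>
    rw [Finset.sum_range_succ, mul_add, ih]
    have := six_tet m
    push_cast
    linear_combination 4 * this

lemma polyB1 (g t u : ℕ) (F k G κ : ℤ) (hG : G = g + 2) (hF : F = g + 2 + t) (hκ : κ = u + 1)
    (hk : k = g + t + u + 3) :
    (κ + 1) * (G * (k ^ 2 - k - 3 + 6 * F - 3 * G)) <
      ((G - 1) * (2 * κ + G + 2) + 2) * (k ^ 2 + 5 * F - 1) := by
  subst hG hF hκ hk
  have h : (0 : ℤ) < 2*g*t*u^2 + g*t^2*u + g*u^3 + 4*g^2*t*u + g^2*t^2 + 3*g^2*u^2 + 2*g^3*t +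
    3*g^3*u + g^4 + 21*g*t*u + 5*g*t^2 + 12*g*u^2 + 21*g^2*t + 30*g^2*u + 16*g^3 + 63*g*t +
    73*g*u + 83*g^2 + 8*t*u + 4*t^2 + 6*u^2 + 164*g + 44*t + 46*u + 108 := by positivity
  linarith

lemma polyB2 (g t u : ℕ) (F k G κ : ℤ) (hG : G = g + 2) (hF : F = g + 2 + t) (hκ : κ = u + 1)
    (hk : k = g + t + u + 3) :
    (κ + 1) * (G * (k ^ 2 - k - 3 + 6 * F - 3 * G)) <
      ((G - 1) * (2 * κ + G + 2) + 2) * (F * (k + κ + 5) - κ - 1) + (κ * (κ + 1)) ^ 2 := by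
  subst hG hF hκ hk
  have h : (0 : ℤ) < 4 * (2*g*t*u^2 + g*t^2*u + 4*g^2*t*u + g^2*t^2 + 2*g^3*t + 3*g^3*u + g^4 +
    21*g*t*u + 5*g*t^2 + 21*g^2*t + 27*g^2*u + 16*g^3 + 4*u^3 + 63*g*t + 48*g*u + 81*g^2 +
    8*t*u + 4*t^2 + 5*u^2 + 150*g + 44*t + 30*u + 96) + 3 * (g^2 * u^2) := by positivity
  have h2 : (0 : ℤ) ≤ (u : ℤ)^2 * (2 * u - g)^2 := by positivity
  have h3 : (0 : ℤ) ≤ ((g : ℤ) * (g - 1)) * (u : ℤ)^2 := by
    apply mul_nonneg _ (by positivity)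
    rcases Nat.eq_zero_or_pos g with h | h
    · subst h; simp
    · apply mul_nonneg (by positivity); omega
  linarith

lemma final1 (f k κ Y C y2 W : ℤ) (hfk : f = k - κ)
    (hW' : (κ + 1) * W ≤ (κ + 1) * (4 * (κ - 1) * (κ * (κ + 1) * (κ + 2) - 3 * Y) -
      (κ - 2) * (κ - 1) * κ * (κ + 1)))
    (h2 : 0 ≤ (κ + 1) * (κ * (κ + 1) - Y))
    (hq : y2 * (k ^ 2 + 5 * f - 1) ≤ Y * (k ^ 2 + 5 * f - 1))
    (hB1 : (κ + 1) * (f * (k ^ 2 - k - 3 + 3 * f) - (C - 1) * (k ^ 2 - k - 3 + 3 * (C - 1))) <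
      y2 * (k ^ 2 + 5 * f - 1)) :
    4 * (κ + 1) * (f - 1) * (k * (k + 1) * (k + 2) + 3 * (f * (2 * k + 3 - f) - Y)) +
      (κ + 1) * W - (κ + 1) * ((f - 1) * f * (f + 1) * (f + 2)) +
      2 * f * (k + κ + 5) * ((κ - 1) * κ * (κ + 1)) +
      4 * f * (k + 4) * (κ * (κ + 1) * (κ + 2) - 3 * Y) <
    3 * (κ + 1) * ((k - 1) * k * (k + 1) * (k + 2) +
      4 * (C - 1) * (k ^ 2 - k - 3 + 3 * (C - 1))) := by
  subst hfk
  linarith

lemma final2 (f k κ Y C y2 W : ℤ) (hfk : f = k - κ)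
    (hW' : (κ + 1) * W ≤ (κ + 1) * ((κ - 1) * κ * (κ + 1) * (3 * κ - 2)))
    (hq : y2 * (f * (k + κ + 5) - κ - 1) ≤ Y * (f * (k + κ + 5) - κ - 1))
    (hB2 : (κ + 1) * (f * (k ^ 2 - k - 3 + 3 * f) - (C - 1) * (k ^ 2 - k - 3 + 3 * (C - 1))) <
      y2 * (f * (k + κ + 5) - κ - 1) + (κ * (κ + 1)) ^ 2) :
    4 * (κ + 1) * (f - 1) * (k * (k + 1) * (k + 2) + 3 * (f * (2 * k + 3 - f) - Y)) +
      (κ + 1) * W - (κ + 1) * ((f - 1) * f * (f + 1) * (f + 2)) +
      2 * f * (k + κ + 5) * ((κ - 1) * κ * (κ + 1)) +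
      4 * f * (k + 4) * (κ * (κ + 1) * (κ + 2) - 3 * Y) <
    3 * (κ + 1) * ((k - 1) * k * (k + 1) * (k + 2) +
      4 * (C - 1) * (k ^ 2 - k - 3 + 3 * (C - 1))) := by
  subst hfk
  linarith

theorem caseB (hD : Dom L) {p k C f : ℕ} (hpos : ∀ i < p, (i, 0, 0) ∈ L)
    (hp1 : 1 ≤ p) (hpk : p + 1 ≤ k)
    (hf : ∀ a < f, (a, k - a, 0) ∈ L) (hfp : f ≤ p) (hf' : (f, k - f, 0) ∉ L)
    (hCf : C + 1 ≤ f) (hC1 : 1 ≤ C)
    (he1 : tet k ≤ L.card) (he2 : L.card < tet k + NN k C) :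
    ∃ y z : ℕ → ℕ, (∀ i < p, (i, y i, z i) ∉ L) ∧
      8 * (((p : ℤ) - 1) * L.card - ∑ i ∈ Finset.range p, (Q L (y i) (z i) : ℤ)) <
        ((k : ℤ) - 1) * k * (k + 1) * (k + 2) +
          4 * (C - 1) * (k ^ 2 - k - 3 + 3 * (C - 1)) := by
  classical
  refine ⟨aL L, fun _ => 0, fun i _ => aL_spec i, ?_⟩
  obtain ⟨e, he⟩ := Nat.exists_eq_add_of_le he1
  obtain ⟨t, ht⟩ := Nat.exists_eq_add_of_le hC1
  obtain ⟨g, hg⟩ := Nat.exists_eq_add_of_le hCf
  obtain ⟨P, hP⟩ := Nat.exists_eq_add_of_le hfp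
  obtain ⟨j, hj⟩ := Nat.exists_eq_add_of_le hpk
  -- columns bound
  have hak : ∀ i, f ≤ i → i < p → aL L i ≤ k - i := by
    intro i hfi hip
    by_contra h
    push Not at h
    have h1 : (i, k - i, 0) ∈ L := (mem_iff_lt_aL hD i _).2 h
    exact hf' (hD _ _ _ _ _ _ h1 hfi (by omega) (by omega))
  set κ : ℤ := (k : ℤ) - f with hκ
  have hκu : κ = ((P + j : ℕ) : ℤ) + 1 := by rw [hκ]; omega
  have hκ0 : 0 < κ + 1 := by rw [hκu]; positivity
  -- `T0`
  set T0 : ℤ := (tet (k + 1) : ℤ) - tet (k + 1 - f) with hT0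
  have hT06 : 6 * T0 = (k + 1) * (k + 2) * (k + 3) - (κ + 1) * (κ + 2) * (κ + 3) := by
    have h1 := six_tet (k + 1)
    have h2 := six_tet (k + 1 - f)
    have h3 : ((k + 1 - f : ℕ) : ℤ) = κ + 1 := by rw [hκ]; omega
    rw [h3] at h2
    push_cast at h1
    rw [hT0]
    linear_combination h1 - h2
  -- size
  have hsize := size_B hD hpos hf
  have hl : (L.card : ℤ) = tet k + e := by rw [he]; push_cast; ring
  have h6k := six_tet k
  set σ : ℤ := (L.card : ℤ) - T0 with hσ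
  have hSa : ∑ i ∈ Finset.Ico f p, ((aL L i : ℤ) * (aL L i + 1)) ≤ 2 * σ := by
    have h1 : ((tet (k + 1) + ∑ i ∈ Finset.Ico f p, tri (aL L i) : ℕ) : ℤ) ≤
        ((L.card + tet (k + 1 - f) : ℕ) : ℤ) := by exact_mod_cast hsize
    push_cast at h1
    have h2 : ∑ i ∈ Finset.Ico f p, ((aL L i : ℤ) * (aL L i + 1)) =
        2 * ∑ i ∈ Finset.Ico f p, (tri (aL L i) : ℤ) := by
      rw [Finset.mul_sum]
      apply Finset.sum_congr rfl
      intro i _
      rw [two_tri]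
    rw [h2, hσ, hT0]
    linarith
  have hSφ : (6 : ℤ) * ∑ i ∈ Finset.Ico f p, ((aL L i : ℤ) * (κ - aL L i)) ≤
      (κ - 1) * κ * (κ + 1) := by
    have h1 := sum_aL hD (p := p) (f := f) (κ := k - f) hpos (by
      intro i h1 h2
      have := hak i h1 h2
      omega)
    have h2 : ((k - f : ℕ) : ℤ) = κ := by rw [hκ]; omega
    rw [h2] at h1
    exact h1
  -- rows
  have hrow : ∀ i ∈ Finset.Ico f p,
      2 * (κ + 1) * (T0 + tet (i - f)) -
        f * ((k + κ + 5) * ((aL L i : ℤ) * (κ - aL L i)) + (k + 4) * ((aL L i : ℤ) * (aL L i + 1)))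
        ≤ 2 * (κ + 1) * (Q L (aL L i) 0 : ℤ) := by
    intro i hi
    rw [Finset.mem_Ico] at hi
    have h1 := row_B hD hf hi.1 (hpos i hi.2) (hak i hi.1 hi.2) (by omega)
    have h2 : ((tet (k - aL L i + 1) + tet (i - f) : ℕ) : ℤ) ≤
        ((Q L (aL L i) 0 + tet (k - aL L i + 1 - f) : ℕ) : ℤ) := by exact_mod_cast h1
    have h3 := hak i hi.1 hi.2
    set a := aL L i with ha
    have h4 := six_tet (k - a + 1)
    have h5 := six_tet (k - a + 1 - f)
    have h6 : ((k - a + 1 : ℕ) : ℤ) = (k : ℤ) - a + 1 := by omega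
    have h7 : ((k - a + 1 - f : ℕ) : ℤ) = κ - a + 1 := by rw [hκ]; omega
    rw [h6] at h4
    rw [h7] at h5
    push_cast at h2
    have hfk : (f : ℤ) = k - κ := by rw [hκ]; ring
    have h8 : 2 * (κ + 1) * (T0 - (tet (k - a + 1) - tet (k - a + 1 - f) : ℤ)) =
        f * ((k + κ + 5) * ((a : ℤ) * (κ - a)) + (k + 4) * ((a : ℤ) * (a + 1))) := by
      rw [hfk]
      have : 6 * (2 * (κ + 1) * (T0 - (tet (k - a + 1) - tet (k - a + 1 - f) : ℤ))) =
        6 * ((k - κ) * ((k + κ + 5) * ((a : ℤ) * (κ - a)) + (k + 4) * ((a : ℤ) * (a + 1)))) := by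
        linear_combination 2 * (κ + 1) * hT06 - 2 * (κ + 1) * h4 + 2 * (κ + 1) * h5
      linarith
    have h9 : 0 ≤ 2 * (κ + 1) * ((Q L a 0 : ℤ) + tet (k - a + 1 - f) - tet (k - a + 1) -
        tet (i - f)) := by
      apply mul_nonneg (by linarith)
      linarith
    linarith
  have hsum := Finset.sum_le_sum hrow
  rw [← Finset.mul_sum, Finset.sum_sub_distrib, ← Finset.mul_sum, ← Finset.mul_sum,
    Finset.sum_add_distrib, Finset.sum_add_distrib, ← Finset.mul_sum, ← Finset.mul_sum,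
    Finset.sum_const, Nat.card_Ico, nsmul_eq_mul] at hsum
  have hPf : ((p - f : ℕ) : ℤ) = P := by omega
  rw [hPf] at hsum
  have hst : (24 : ℤ) * ∑ i ∈ Finset.Ico f p, (tet (i - f) : ℤ) = (P - 1) * P * (P + 1) * (P + 2) := by
    rw [← sum_tet' P, Finset.sum_Ico_eq_sum_range]
    have : p - f = P := by omega
    rw [this]
    congr 1
    apply Finset.sum_congr rfl
    intro i _
    congr 2
    omega
  -- the rows below `f`
  have hlow : (24 : ℤ) * ∑ i ∈ Finset.range f, (Q L (aL L i) 0 : ℤ) ≥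
      (f - 1) * f * (f + 1) * (f + 2) := by
    rw [← sum_tet' f]
    apply mul_le_mul_of_nonneg_left _ (by norm_num)
    apply Finset.sum_le_sum
    intro i hi
    rw [Finset.mem_range] at hi
    exact_mod_cast row_any hD (hpos i (by omega))
  have hsplit : ∑ i ∈ Finset.range p, (Q L (aL L i) 0 : ℤ) =
      ∑ i ∈ Finset.range f, (Q L (aL L i) 0 : ℤ) + ∑ i ∈ Finset.Ico f p, (Q L (aL L i) 0 : ℤ) := by
    rw [Finset.sum_range_add_sum_Ico _ hfp]
  rw [hsplit]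
  have hfz : (f : ℤ) = g + 2 + t := by omega
  have hCz : (C : ℤ) = t + 1 := by omega
  have hkz : (k : ℤ) = g + t + ((P + j : ℕ) : ℤ) + 3 := by omega
  have hpz : (p : ℤ) = f + P := by omega
  have hB1 := polyB1 g t (P + j) f k (g + 2) κ rfl hfz hκu hkz
  have hB2 := polyB2 g t (P + j) f k (g + 2) κ rfl hfz hκu hkz
  have hk0 : (0 : ℤ) ≤ k := by positivity
  have hf0 : (0 : ℤ) ≤ f := by positivity
  have hκ1 : 1 ≤ κ := by rw [hκu]; linarith [show (0 : ℤ) ≤ ((P + j : ℕ) : ℤ) by positivity]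
  -- the bound for `y`
  have hY : ((g : ℤ) + 2 - 1) * (2 * κ + (g + 2) + 2) + 2 ≤ f * (2 * k + 3 - f) - 2 * e := by
    have h1 := two_NN k C (by omega)
    have h2 : e + 1 ≤ NN k C := by omega
    have h3 : (2 : ℤ) * (e + 1) ≤ 2 * NN k C := by
      have : ((e + 1 : ℕ) : ℤ) ≤ NN k C := by exact_mod_cast h2
      push_cast at this
      linarith
    have h4 : (f : ℤ) * (2 * k + 3 - f) - C * (2 * k + 3 - C) + 2 =
        ((g : ℤ) + 2 - 1) * (2 * κ + (g + 2) + 2) + 2 := by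
      rw [hfz, hCz, hkz, hκu]; ring
    linarith
  have hD2 : (f : ℤ) * (k ^ 2 - k - 3 + 3 * f) - (C - 1) * (k ^ 2 - k - 3 + 3 * (C - 1)) =
      (g + 2) * (k ^ 2 - k - 3 + 6 * f - 3 * (g + 2)) := by
    rw [hfz, hCz]; ring
  set A := ∑ i ∈ Finset.Ico f p, (Q L (aL L i) 0 : ℤ) with hA
  set B := ∑ i ∈ Finset.range f, (Q L (aL L i) 0 : ℤ) with hB
  set Sφ := ∑ i ∈ Finset.Ico f p, ((aL L i : ℤ) * (κ - aL L i)) with hSφd
  set Sa := ∑ i ∈ Finset.Ico f p, ((aL L i : ℤ) * (aL L i + 1)) with hSad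
  set St := ∑ i ∈ Finset.Ico f p, (tet (i - f) : ℤ) with hStd
  clear_value A B Sφ Sa St
  have hm1 : (f : ℤ) * (k + κ + 5) * (6 * Sφ) ≤ f * (k + κ + 5) * ((κ - 1) * κ * (κ + 1)) :=
    mul_le_mul_of_nonneg_left hSφ (mul_nonneg hf0 (by linarith))
  have hm2 : (f : ℤ) * (k + 4) * Sa ≤ f * (k + 4) * (2 * σ) :=
    mul_le_mul_of_nonneg_left hSa (mul_nonneg hf0 (by linarith))
  have hm3 : (κ + 1) * ((f - 1) * f * (f + 1) * (f + 2)) ≤ (κ + 1) * (24 * B) :=
    mul_le_mul_of_nonneg_left hlow hκ0.le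
  have hm4 : (κ + 1) * (24 * St) = (κ + 1) * ((P - 1) * P * (P + 1) * (P + 2)) := by rw [hst]
  have hlσ : (L.card : ℤ) = T0 + σ := by rw [hσ]; ring
  -- the total bound with `W = 24 P σ - (P-1) P (P+1) (P+2)`
  have htot : 24 * (κ + 1) * (((p : ℤ) - 1) * L.card - (B + A)) ≤
      24 * (κ + 1) * (f - 1) * L.card +
        (κ + 1) * (24 * P * σ - (P - 1) * P * (P + 1) * (P + 2)) -
        (κ + 1) * ((f - 1) * f * (f + 1) * (f + 2)) +
        2 * f * (k + κ + 5) * ((κ - 1) * κ * (κ + 1)) + 24 * f * (k + 4) * σ := by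
    rw [hpz, hlσ]
    linarith
  have hgP := gP P j
  have hκPj : (P : ℤ) + j = κ - 1 := by rw [hκu]; push_cast; ring
  have hgP' : (κ - 2) * (κ - 1) * κ * (κ + 1) ≤
      (P - 1) * P * (P + 1) * (P + 2) + 4 * j * ((κ - 1) * κ * (κ + 1)) := by
    rw [hκPj] at hgP
    linarith
  have hj0 : (0 : ℤ) ≤ j := by positivity
  have hP0 : (0 : ℤ) ≤ P := by positivity
  have hfk : (f : ℤ) = k - κ := by rw [hκ]; ring
  have hfin : 24 * (κ + 1) * (((p : ℤ) - 1) * L.card - (B + A)) <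
      3 * (κ + 1) * (((k : ℤ) - 1) * k * (k + 1) * (k + 2) +
          4 * (C - 1) * (k ^ 2 - k - 3 + 3 * (C - 1))) := by
    refine lt_of_le_of_lt htot ?_
    obtain ⟨Y, hYd⟩ : ∃ Y : ℤ, Y = f * (2 * k + 3 - f) - 2 * e := ⟨_, rfl⟩
    rw [← hYd] at hY
    have hσ6 : 6 * σ = κ * (κ + 1) * (κ + 2) - 3 * Y := by
      rw [hσ, hYd, hfk]
      linear_combination 6 * hl + h6k - hT06
    have hl6 : 6 * (L.card : ℤ) = k * (k + 1) * (k + 2) + 3 * (f * (2 * k + 3 - f) - Y) := by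
      rw [hYd]
      linear_combination 6 * hl + h6k
    have e1 : 24 * (κ + 1) * (f - 1) * (L.card : ℤ) =
        4 * (κ + 1) * (f - 1) * (k * (k + 1) * (k + 2) + 3 * (f * (2 * k + 3 - f) - Y)) := by
      rw [← hl6]; ring
    have e2 : 24 * f * (k + 4) * σ = 4 * f * (k + 4) * (κ * (κ + 1) * (κ + 2) - 3 * Y) := by
      rw [← hσ6]; ring
    have hf2 : (2 : ℤ) ≤ f := by omega
    have hM : 0 ≤ (k : ℤ) ^ 2 + 5 * f - 1 := by
      have h1 : (0 : ℤ) ≤ (k : ℤ) ^ 2 := sq_nonneg _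
      linarith only [h1, hf2]
    have hM' : 0 ≤ (f : ℤ) * (k + κ + 5) - κ - 1 := by
      have h1 := mul_le_mul_of_nonneg_right hf2 (show (0 : ℤ) ≤ k + κ + 5 by linarith only [hk0, hκ1])
      linarith only [h1, hk0, hκ1]
    have hq := mul_le_mul_of_nonneg_right hY hM
    have hq' := mul_le_mul_of_nonneg_right hY hM'
    rw [← hD2] at hB1 hB2
    rcases le_total ((κ - 1) * κ * (κ + 1)) (6 * σ) with h | h
    · have hW : 24 * P * σ - (P - 1) * P * (P + 1) * (P + 2) ≤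
          4 * (κ - 1) * (κ * (κ + 1) * (κ + 2) - 3 * Y) - (κ - 2) * (κ - 1) * κ * (κ + 1) := by
        have e0 : ((P : ℤ) + j) * σ = (κ - 1) * σ := by rw [hκPj]
        have h1 := mul_le_mul_of_nonneg_left h (show (0 : ℤ) ≤ 4 * j by linarith only [hj0])
        rw [← hσ6]
        linarith only [h1, e0, hgP']
      have hW' := mul_le_mul_of_nonneg_left hW hκ0.le
      have hYκ : Y ≤ κ * (κ + 1) := by
        rw [hσ6] at h
        linarith only [h]
      have h2 : 0 ≤ (κ + 1) * (κ * (κ + 1) - Y) := mul_nonneg hκ0.le (by linarith only [hYκ])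
      rw [e1, e2]
      exact final1 f k κ Y C _ _ hfk hW' h2 hq hB1
    · have hW : 24 * P * σ - (P - 1) * P * (P + 1) * (P + 2) ≤
          (κ - 1) * κ * (κ + 1) * (3 * κ - 2) := by
        have e0 : ((P : ℤ) + j) * ((κ - 1) * κ * (κ + 1)) = (κ - 1) * ((κ - 1) * κ * (κ + 1)) := by
          rw [hκPj]
        have h1 := mul_le_mul_of_nonneg_left h (show (0 : ℤ) ≤ 4 * P by linarith only [hP0])
        linarith only [h1, e0, hgP']
      have hW' := mul_le_mul_of_nonneg_left hW hκ0.le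
      rw [e1, e2]
      exact final2 f k κ Y C _ _ hfk hW' hq' hB2
  have : 3 * (κ + 1) * (8 * (((p : ℤ) - 1) * L.card - (B + A))) <
      3 * (κ + 1) * (((k : ℤ) - 1) * k * (k + 1) * (k + 2) +
          4 * (C - 1) * (k ^ 2 - k - 3 + 3 * (C - 1))) := by linarith
  exact lt_of_mul_lt_mul_left this (by linarith)

end Pool.Agent.TH205.Hilb.Comb
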