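import Mathlib

/-!
# Dimension of the space of first-order deformations of a commuting triple

For endomorphisms `X, Y, Z` of a finite-dimensional space `A` of dimension `l`, let
`ζ = dim {g | gY = Yg, gZ = Zg}`.  The space of triples `(X', Y', Z')` with
`[X',Y] = [Y',X]`, `[X',Z] = [Z',X]`, `[Y',Z] = [Z',Y]` has dimension at most `l^2 + 2ζ`.
-/

open Module LinearMap

namespace Pool.Agent.TH205.Hilb

variable {K A : Type*} [Field K] [AddCommGroup A] [Module K A] [FiniteDimensional K A]

/-- Commutator with a fixed endomorphism: `M ↦ M Y - Y M`. -/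
def comm (Y : Module.End K A) : Module.End K A →ₗ[K] Module.End K A :=
  LinearMap.mulRight K Y - LinearMap.mulLeft K Y

omit [FiniteDimensional K A] in
@[simp] lemma comm_apply (Y M : Module.End K A) : comm Y M = M * Y - Y * M := rfl

/-- The endomorphisms commuting with `Y` and `Z`. -/
def cent (Y Z : Module.End K A) : Submodule K (Module.End K A) :=
  LinearMap.ker (comm Y) ⊓ LinearMap.ker (comm Z)

omit [FiniteDimensional K A] in
lemma mem_cent {Y Z g : Module.End K A} : g ∈ cent Y Z ↔ g * Y = Y * g ∧ g * Z = Z * g := by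
  simp [cent, sub_eq_zero]

/-- The trace form. -/
noncomputable def trForm (K A : Type*) [Field K] [AddCommGroup A] [Module K A] :
    LinearMap.BilinForm K (Module.End K A) :=
  LinearMap.mk₂ K (fun M N => LinearMap.trace K A (M * N))
    (by intros; simp [add_mul]) (by intros; simp) (by intros; simp [mul_add]) (by intros; simp)

omit [FiniteDimensional K A] in
lemma trForm_apply (M N : Module.End K A) : trForm K A M N = LinearMap.trace K A (M * N) := rfl

lemma eq_zero_of_trace_mul {M : Module.End K A}
    (h : ∀ N : Module.End K A, LinearMap.trace K A (M * N) = 0) : M = 0 := by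
  ext v
  have : ∀ f : Module.Dual K A, f (M v) = 0 := by
    intro f
    have h1 := h (f.smulRight v)
    have h2 : M * (f.smulRight v) = f.smulRight (M v) := by
      ext u; simp [LinearMap.smulRight_apply]
    rw [h2, LinearMap.trace_smulRight] at h1
    exact h1
  simpa using (Module.forall_dual_apply_eq_zero_iff K (M v)).1 this

/-- The map `(M, N) ↦ [M, Z] - [N, Y]`. -/
def tau (Y Z : Module.End K A) : (Module.End K A × Module.End K A) →ₗ[K] Module.End K A :=
  (comm Z) ∘ₗ (LinearMap.fst K _ _) - (comm Y) ∘ₗ (LinearMap.snd K _ _)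

omit [FiniteDimensional K A] in
@[simp] lemma tau_apply (Y Z M N : Module.End K A) :
    tau Y Z (M, N) = (M * Z - Z * M) - (N * Y - Y * N) := rfl

lemma orthogonal_le_cent (Y Z : Module.End K A) :
    (trForm K A).orthogonal (LinearMap.range (tau Y Z)) ≤ cent Y Z := by
  intro W hW
  rw [LinearMap.BilinForm.mem_orthogonal_iff] at hW
  rw [mem_cent]
  have key : ∀ M N : Module.End K A,
      LinearMap.trace K A (((M * Z - Z * M) - (N * Y - Y * N)) * W) = 0 := by
    intro M N
    exact hW _ ⟨(M, N), rfl⟩
  have aux : ∀ T N : Module.End K A, LinearMap.trace K A ((N * T - T * N) * W) =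
      - LinearMap.trace K A ((W * T - T * W) * N) := by
    intro T N
    have e1 : LinearMap.trace K A (T * N * W) = LinearMap.trace K A (W * T * N) := by
      rw [LinearMap.trace_mul_cycle]
    have e2 : LinearMap.trace K A (N * T * W) = LinearMap.trace K A (T * W * N) := by
      rw [LinearMap.trace_mul_cycle, LinearMap.trace_mul_cycle]
    simp only [sub_mul, map_sub]
    rw [e1, e2]; ring
  constructor
  · refine sub_eq_zero.1 (eq_zero_of_trace_mul fun N => ?_)
    have h := key 0 N
    have h' := aux Y N
    simp only [zero_mul, mul_zero, sub_zero, zero_sub, neg_mul, map_neg] at h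
    rw [h'] at h
    simpa using h
  · refine sub_eq_zero.1 (eq_zero_of_trace_mul fun N => ?_)
    have h := key N 0
    have h' := aux Z N
    simp only [zero_mul, mul_zero, sub_zero] at h
    rw [h'] at h
    simpa using h

lemma trForm_nondegenerate : (trForm K A).Nondegenerate := by
  refine ⟨fun M hM => eq_zero_of_trace_mul fun N => hM N, fun M hM => ?_⟩
  refine eq_zero_of_trace_mul fun N => ?_
  rw [LinearMap.trace_mul_comm]
  exact hM N

lemma finrank_range_tau (Y Z : Module.End K A) :
    finrank K (Module.End K A) ≤ finrank K (LinearMap.range (tau Y Z)) + finrank K (cent Y Z) := by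
  have h1 := LinearMap.BilinForm.finrank_orthogonal (B := trForm K A) trForm_nondegenerate
    (LinearMap.range (tau Y Z))
  have h2 := Submodule.finrank_mono (orthogonal_le_cent Y Z)
  omega

/-- The space of first-order commuting deformations of the triple `(X, Y, Z)`. -/
def defSp (X Y Z : Module.End K A) :
    Submodule K (Module.End K A × Module.End K A × Module.End K A) where
  carrier := {q | q.1 * Y - Y * q.1 = q.2.1 * X - X * q.2.1 ∧
    q.1 * Z - Z * q.1 = q.2.2 * X - X * q.2.2 ∧
    q.2.1 * Z - Z * q.2.1 = q.2.2 * Y - Y * q.2.2}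
  add_mem' := by
    rintro a b ⟨h1, h2, h3⟩ ⟨g1, g2, g3⟩
    refine ⟨?_, ?_, ?_⟩
    · have := congrArg₂ (· + ·) h1 g1
      simp only [Prod.fst_add, Prod.snd_add, add_mul, mul_add]
      rw [add_sub_add_comm, add_sub_add_comm]; exact this
    · have := congrArg₂ (· + ·) h2 g2
      simp only [Prod.fst_add, Prod.snd_add, add_mul, mul_add]
      rw [add_sub_add_comm, add_sub_add_comm]; exact this
    · have := congrArg₂ (· + ·) h3 g3
      simp only [Prod.fst_add, Prod.snd_add, add_mul, mul_add]
      rw [add_sub_add_comm, add_sub_add_comm]; exact this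
  zero_mem' := by simp
  smul_mem' := by
    rintro c a ⟨h1, h2, h3⟩
    refine ⟨?_, ?_, ?_⟩
    · simp only [Prod.smul_fst, Prod.smul_snd, smul_mul_assoc, mul_smul_comm, ← smul_sub, h1]
    · simp only [Prod.smul_fst, Prod.smul_snd, smul_mul_assoc, mul_smul_comm, ← smul_sub, h2]
    · simp only [Prod.smul_fst, Prod.smul_snd, smul_mul_assoc, mul_smul_comm, ← smul_sub, h3]

lemma finrank_defSp_le (X Y Z : Module.End K A) :
    finrank K (defSp X Y Z) ≤ finrank K (Module.End K A) + 2 * finrank K (cent Y Z) := by
  -- projection to `(Y', Z')`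
  let pr : defSp X Y Z →ₗ[K] (Module.End K A × Module.End K A) :=
    (LinearMap.snd K _ _) ∘ₗ (defSp X Y Z).subtype
  have h1 := LinearMap.finrank_range_add_finrank_ker pr
  have h2 : finrank K (LinearMap.range pr) ≤ finrank K (LinearMap.ker (tau Y Z)) := by
    apply Submodule.finrank_mono
    rintro _ ⟨⟨q, hq⟩, rfl⟩
    rw [LinearMap.mem_ker]
    show tau Y Z (q.2.1, q.2.2) = 0
    rw [tau_apply, hq.2.2, sub_self]
  have h3 : finrank K (LinearMap.ker pr) ≤ finrank K (cent Y Z) := by
    let f : LinearMap.ker pr →ₗ[K] cent Y Z :=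
      LinearMap.codRestrict (cent Y Z)
        ((LinearMap.fst K _ _) ∘ₗ (defSp X Y Z).subtype ∘ₗ (LinearMap.ker pr).subtype) (by
          rintro ⟨⟨q, hq⟩, hk⟩
          have hk' : q.2 = 0 := hk
          rw [mem_cent]
          have e1 := hq.1
          have e2 := hq.2.1
          rw [hk'] at e1 e2
          simp only [Prod.fst_zero, Prod.snd_zero, zero_mul, mul_zero, sub_self] at e1 e2
          exact ⟨sub_eq_zero.1 e1, sub_eq_zero.1 e2⟩)
    apply LinearMap.finrank_le_finrank_of_injective (f := f)
    rintro ⟨⟨q, hq⟩, hk⟩ ⟨⟨q', hq'⟩, hk'⟩ h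
    have e1 : q.1 = q'.1 := congrArg Subtype.val h
    have e2 : q.2 = 0 := hk
    have e3 : q'.2 = 0 := hk'
    have : q = q' := Prod.ext e1 (by rw [e2, e3])
    subst this; rfl
  have h4 := LinearMap.finrank_range_add_finrank_ker (tau Y Z)
  have h5 := finrank_range_tau Y Z
  have h6 : finrank K (Module.End K A × Module.End K A) =
    finrank K (Module.End K A) + finrank K (Module.End K A) := Module.finrank_prod
  omega

end Pool.Agent.TH205.Hilb
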