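import Mathlib

/-!
# Strongly stable finite sets of exponents: quadrant counts
-/

namespace Pool.Agent.TH205.Hilb.Comb

/-- degree -/
def dg (w : ℕ × ℕ × ℕ) : ℕ := w.1 + w.2.1 + w.2.2

/-- closed under the dominance order -/
def Dom (L : Finset (ℕ × ℕ × ℕ)) : Prop :=
  ∀ a b e a' b' e' : ℕ, (a, b, e) ∈ L → a' ≤ a → a' + b' ≤ a + b → a' + b' + e' ≤ a + b + e →
    (a', b', e') ∈ L

/-- quadrant count -/
def Q (L : Finset (ℕ × ℕ × ℕ)) (y z : ℕ) : ℕ :=
  (L.filter (fun w => (w.1, w.2.1 + y, w.2.2 + z) ∈ L)).card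

lemma le_Q {L : Finset (ℕ × ℕ × ℕ)} (hD : Dom L) {y z : ℕ} (T : Finset (ℕ × ℕ × ℕ))
    (hT : ∀ w ∈ T, w ∈ L ∧ y ≤ w.2.1 ∧ z ≤ w.2.2) : T.card ≤ Q L y z := by
  apply Finset.card_le_card_of_injOn (fun w => (w.1, w.2.1 - y, w.2.2 - z))
  · rintro ⟨a, b, e⟩ hw
    obtain ⟨h1, h2, h3⟩ := hT _ hw
    simp only at h2 h3
    simp only [Finset.coe_filter]
    refine ⟨hD a b e _ _ _ h1 le_rfl (by omega) (by omega), ?_⟩
    rw [Nat.sub_add_cancel h2, Nat.sub_add_cancel h3]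
    exact h1
  · rintro ⟨a, b, e⟩ hw ⟨a', b', e'⟩ hw' h
    obtain ⟨-, h2, h3⟩ := hT _ hw
    obtain ⟨-, h2', h3'⟩ := hT _ hw'
    simp only [Prod.mk.injEq] at h h2 h3 h2' h3' ⊢
    omega

/-- exponents of degree `d` with first exponent in `s` -/
def slb (d : ℕ) (s : Finset ℕ) : Finset (ℕ × ℕ × ℕ) :=
  (s.sigma (fun a => Finset.range (d + 1 - a))).image (fun q => (q.1, q.2, d - q.1 - q.2))

lemma mem_slb {d : ℕ} {s : Finset ℕ} {w : ℕ × ℕ × ℕ} :
    w ∈ slb d s ↔ w.1 ∈ s ∧ dg w = d := by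
  obtain ⟨a, b, e⟩ := w
  simp only [slb, Finset.mem_image, Finset.mem_sigma, Finset.mem_range, dg, Prod.mk.injEq]
  constructor
  · rintro ⟨⟨a', b'⟩, ⟨h1, h2⟩, rfl, rfl, rfl⟩
    simp only at h1 h2 ⊢
    exact ⟨h1, by omega⟩
  · rintro ⟨h1, rfl⟩
    exact ⟨⟨a, b⟩, ⟨h1, by simp only; omega⟩, rfl, rfl, by simp only; omega⟩

lemma card_slb (d : ℕ) (s : Finset ℕ) : (slb d s).card = ∑ a ∈ s, (d + 1 - a) := by
  rw [slb, Finset.card_image_of_injOn]
  · rw [Finset.card_sigma]; simp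
  · rintro ⟨a, b⟩ h1 ⟨a', b'⟩ h2 h
    simp only [Prod.mk.injEq] at h
    obtain ⟨rfl, rfl, -⟩ := h
    rfl

/-- the simplex `deg < m` -/
def spx (m : ℕ) : Finset (ℕ × ℕ × ℕ) :=
  (Finset.range m).biUnion (fun d => slb d (Finset.range (d + 1)))

lemma mem_spx {m : ℕ} {w : ℕ × ℕ × ℕ} : w ∈ spx m ↔ dg w < m := by
  simp only [spx, Finset.mem_biUnion, Finset.mem_range, mem_slb]
  constructor
  · rintro ⟨d, h1, h2, h3⟩; omega
  · intro h
    refine ⟨dg w, h, ?_, rfl⟩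
    simp only [dg]; omega

/-- tetrahedral numbers -/
def tet (m : ℕ) : ℕ := (m + 2).choose 3

lemma six_tet (m : ℕ) : (6 : ℤ) * tet m = (m : ℤ) * (m + 1) * (m + 2) := by
  have h := Nat.add_choose_eq
  induction m with
  | zero => simp [tet]
  | succ m ih =>
    have h1 : tet (m + 1) = tet m + (m + 2).choose 2 := by
      rw [tet, tet, Nat.choose_succ_succ' (m + 2) 2, add_comm]
    have h2 : (2 : ℤ) * ((m + 2).choose 2 : ℕ) = (m + 2) * (m + 1) := by
      have := Nat.triangle_succ (m + 1)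
      have h3 := Nat.choose_two_right (m + 2)
      have h4 : 2 ∣ (m + 2) * (m + 2 - 1) := (Nat.even_mul_pred_self (m + 2)).two_dvd
      have h5 : (m + 2).choose 2 * 2 = (m + 2) * (m + 2 - 1) := by
        rw [h3]; exact Nat.div_mul_cancel h4
      have h6 : m + 2 - 1 = m + 1 := by omega
      rw [h6] at h5
      have h7 : (((m + 2).choose 2 * 2 : ℕ) : ℤ) = (((m + 2) * (m + 1) : ℕ) : ℤ) := by rw [h5]
      push_cast at h7
      linarith
    rw [h1]
    push_cast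
    linarith

lemma sum_sub (n m : ℕ) (h : n ≤ m) :
    (2 : ℤ) * ((∑ a ∈ Finset.range n, (m - a) : ℕ) : ℤ) = n * (2 * m + 1 - n) := by
  induction n with
  | zero => simp
  | succ n ih =>
    rw [Finset.sum_range_succ]
    push_cast [Nat.cast_sub (show n ≤ m by omega)]
    have := ih (by omega)
    push_cast at this
    linarith

lemma card_spx (m : ℕ) : (spx m).card = tet m := by
  have h1 : (spx m).card = ∑ d ∈ Finset.range m, ∑ a ∈ Finset.range (d + 1), (d + 1 - a) := by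
    rw [spx, Finset.card_biUnion]
    · simp only [card_slb]
    · intro x _ y _ hxy
      rw [Function.onFun, Finset.disjoint_left]
      intro w h1 h2
      exact hxy ((mem_slb.1 h1).2.symm.trans (mem_slb.1 h2).2)
  have h2 : (6 : ℤ) * (spx m).card = 6 * tet m := by
    rw [six_tet, h1]
    clear h1
    induction m with
    | zero => simp
    | succ m ih =>
      rw [Finset.sum_range_succ]
      have h3 := sum_sub (m + 1) (m + 1) le_rfl
      push_cast at ih h3 ⊢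
      linarith
  have : ((spx m).card : ℤ) = tet m := by linarith
  exact_mod_cast this

end Pool.Agent.TH205.Hilb.Comb
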