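import Pool.Agent.TH205.Hilb.CaseB

/-!
# The combinatorial theorem
-/

namespace Pool.Agent.TH205.Hilb.Comb

variable {L : Finset (ℕ × ℕ × ℕ)}

theorem caseT (hD : Dom L) {p k C : ℕ} (hpos : ∀ i < p, (i, 0, 0) ∈ L)
    (hp1 : 1 ≤ p) (hpk : p + 1 ≤ k) (hC : k ≤ C + 1) (hC' : C ≤ k + 1)
    (he1 : tet k ≤ L.card) (he2 : L.card < tet k + NN k C) :
    ∃ y z : ℕ → ℕ, (∀ i < p, (i, y i, z i) ∉ L) ∧
      8 * (((p : ℤ) - 1) * L.card - ∑ i ∈ Finset.range p, (Q L (y i) (z i) : ℤ)) <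
        ((k : ℤ) - 1) * k * (k + 1) * (k + 2) +
          4 * (C - 1) * (k ^ 2 - k - 3 + 3 * (C - 1)) := by
  classical
  refine ⟨aL L, fun _ => 0, fun i _ => aL_spec i, ?_⟩
  obtain ⟨e, he⟩ := Nat.exists_eq_add_of_le he1
  have hl : (L.card : ℤ) = tet k + e := by rw [he]; push_cast; ring
  have hext := extend_sum hp1 hpk L.card (fun i => Q L (aL L i) 0)
    (fun i => (tet i : ℤ)) (fun i _ hi => by exact_mod_cast row_any hD (hpos i hi)) (by
      intro i hi hik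
      have h1 := tet_mono (show i ≤ k by omega)
      have : tet i ≤ L.card := by omega
      exact_mod_cast this)
  have hst := sum_tet (k - 2)
  have hk2 : k - 2 + 1 = k - 1 := by omega
  rw [hk2] at hst
  have hk2' : ((k - 2 : ℕ) : ℤ) = (k : ℤ) - 2 := by omega
  rw [hk2'] at hst
  have h6 := six_tet k
  have h7 : ((k : ℤ) - 2) * (6 * tet k) = ((k : ℤ) - 2) * (k * (k + 1) * (k + 2)) := by rw [h6]
  have h1 := two_NN k C hC'
  have h2 : e + 1 ≤ NN k C := by omega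
  have h3 : (2 : ℤ) * (e + 1) ≤ C * (2 * k + 3 - C) := by
    have : ((e + 1 : ℕ) : ℤ) ≤ NN k C := by exact_mod_cast h2
    push_cast at this
    linarith
  have key : 2 * ((k : ℤ) - 2) * e < k * (k + 1) + (C - 1) * (k ^ 2 - k - 6 + 3 * C) := by
    obtain ⟨s, hs⟩ := Nat.exists_eq_add_of_le hC
    have hs2 : s ≤ 2 := by omega
    have hCz : (C : ℤ) = k + s - 1 := by omega
    have hk2z : (0 : ℤ) ≤ (k : ℤ) - 2 := by omega
    have h4 := mul_le_mul_of_nonneg_left h3 hk2z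
    rw [hCz] at h4 ⊢
    clear hst h7 hext h6 h1
    interval_cases s
    · push_cast at h4 ⊢
      linarith
    · push_cast at h4 ⊢
      nlinarith
    · push_cast at h4 ⊢
      nlinarith
  rw [hl] at hext ⊢
  linarith

/-- The combinatorial theorem. -/
theorem comb (hD : Dom L) {p k : ℕ} (hpos : ∀ i < p, (i, 0, 0) ∈ L) (hp : (p, 0, 0) ∉ L)
    (hp1 : 1 ≤ p) (hpk : p + 1 ≤ k) (h1 : tet k ≤ L.card) (h2 : L.card < tet (k + 1)) :
    ∃ c : ℕ, c ≤ k ∧ tet k + NN k c ≤ L.card ∧ ∃ y z : ℕ → ℕ, (∀ i < p, (i, y i, z i) ∉ L) ∧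
      8 * (((p : ℤ) - 1) * L.card - ∑ i ∈ Finset.range p, (Q L (y i) (z i) : ℤ)) <
        ((k : ℤ) - 1) * k * (k + 1) * (k + 2) + 4 * c * (k ^ 2 - k - 3 + 3 * c) := by
  classical
  have htk : tet (k + 1) = tet k + NN k (k + 1) := by
    have h3 := two_NN k (k + 1) le_rfl
    have h4 := six_tet k
    have h5 := six_tet (k + 1)
    push_cast at h3 h5
    have : (tet (k + 1) : ℤ) = tet k + NN k (k + 1) := by linarith
    exact_mod_cast this
  have hexC : ∃ C, L.card < tet k + NN k C := ⟨k + 1, by omega⟩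
  obtain ⟨C, hC⟩ : ∃ C, C = Nat.find hexC := ⟨_, rfl⟩
  have hCs : L.card < tet k + NN k C := hC ▸ Nat.find_spec hexC
  have hCk : C ≤ k + 1 := hC ▸ Nat.find_min' hexC (by omega)
  have hC1 : 1 ≤ C := by
    by_contra h
    have : C = 0 := by omega
    subst this
    simp only [NN, Finset.range_zero, Finset.sum_empty, add_zero] at hCs
    omega
  have hCm : tet k + NN k (C - 1) ≤ L.card := by
    by_contra h
    push Not at h
    have := Nat.find_min' hexC h
    omega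
  refine ⟨C - 1, by omega, hCm, ?_⟩
  have hCz : ((C - 1 : ℕ) : ℤ) = (C : ℤ) - 1 := by omega
  rw [hCz]
  by_cases hT : k ≤ C + 1
  · exact caseT hD hpos hp1 hpk hT hCk h1 hCs
  have hfex : ∃ a, (a, k - a, 0) ∉ L := ⟨p, fun h => hp (hD _ _ _ _ _ _ h le_rfl (by omega) (by omega))⟩
  have hcex : ∃ a, (a, 0, k - a) ∉ L := ⟨p, fun h => hp (hD _ _ _ _ _ _ h le_rfl (by omega) (by omega))⟩
  obtain ⟨f, hf⟩ : ∃ f, f = Nat.find hfex := ⟨_, rfl⟩
  obtain ⟨c, hc⟩ : ∃ c, c = Nat.find hcex := ⟨_, rfl⟩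
  have hf1 : ∀ a < f, (a, k - a, 0) ∈ L := by
    intro a ha
    by_contra h
    have := Nat.find_min' hfex h
    omega
  have hf2 : (f, k - f, 0) ∉ L := hf ▸ Nat.find_spec hfex
  have hfp : f ≤ p := hf ▸ Nat.find_min' hfex
    (fun h => hp (hD _ _ _ _ _ _ h le_rfl (by omega) (by omega)))
  have hc1 : ∀ a < c, (a, 0, k - a) ∈ L := by
    intro a ha
    by_contra h
    have := Nat.find_min' hcex h
    omega
  have hc2 : (c, 0, k - c) ∉ L := hc ▸ Nat.find_spec hcex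
  have hcp : c ≤ p := hc ▸ Nat.find_min' hcex
    (fun h => hp (hD _ _ _ _ _ _ h le_rfl (by omega) (by omega)))
  have hfc : f ≤ c := by
    rw [hf]
    apply Nat.find_min' hfex
    intro h
    exact hc2 (hD _ _ _ _ _ _ h le_rfl (by omega) (by omega))
  by_cases hfC : f ≤ C
  · exact caseA hD hpos hp hp1 hpk hf1 hfp hf2 hc1 hcp hc2 hfc hfC hC1 (by omega) h1 hCs
  · exact caseB hD hpos hp1 hpk hf1 hfp hf2 (by omega) hC1 h1 hCs

/-- The first pure exponent is at most `k`. -/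
lemma p_le (hD : Dom L) {p k : ℕ} (hpos : ∀ i < p, (i, 0, 0) ∈ L)
    (h2 : L.card < tet (k + 1)) : p ≤ k := by
  classical
  by_contra h
  push Not at h
  have h3 : spx (k + 1) ⊆ L := by
    rintro ⟨a, b, e⟩ hw
    rw [mem_spx] at hw
    simp only [dg] at hw
    exact hD _ _ _ _ _ _ (hpos k h) (by omega) (by omega) (by omega)
  have h4 := Finset.card_le_card h3
  rw [card_spx] at h4
  omega

end Pool.Agent.TH205.Hilb.Comb
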