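import Pool.Agent.TH205.Hilb.CombBasic

/-!
# Row-by-row quadrant bounds
-/

namespace Pool.Agent.TH205.Hilb.Comb

variable {L : Finset (ℕ × ℕ × ℕ)}

lemma Q_ge_simplex_add (hD : Dom L) {i y z : ℕ}
    (hs : ∀ a b e : ℕ, a + b + e < i → (a, b + y, e + z) ∈ L)
    (T : Finset (ℕ × ℕ × ℕ))
    (hT : ∀ w ∈ T, w ∈ L ∧ y ≤ w.2.1 ∧ z ≤ w.2.2 ∧ i + y + z ≤ dg w) :
    tet i + T.card ≤ Q L y z := by
  classical
  have hinj : Function.Injective (fun w : ℕ × ℕ × ℕ => ((w.1, w.2.1 + y, w.2.2 + z) : ℕ × ℕ × ℕ)) := by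
    rintro ⟨a, b, e⟩ ⟨a', b', e'⟩ h
    simp only [Prod.mk.injEq] at h ⊢
    omega
  have hdisj : Disjoint ((spx i).image
      (fun w : ℕ × ℕ × ℕ => ((w.1, w.2.1 + y, w.2.2 + z) : ℕ × ℕ × ℕ))) T := by
    rw [Finset.disjoint_left]
    intro w h1 h2
    obtain ⟨⟨a, b, e⟩, h3, rfl⟩ := Finset.mem_image.1 h1
    rw [mem_spx] at h3
    have := (hT _ h2).2.2.2
    simp only [dg] at this h3
    omega
  have h1 := le_Q hD (y := y) (z := z) (((spx i).image
      (fun w : ℕ × ℕ × ℕ => ((w.1, w.2.1 + y, w.2.2 + z) : ℕ × ℕ × ℕ))) ∪ T) (by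
    intro w hw
    rcases Finset.mem_union.1 hw with hw | hw
    · obtain ⟨⟨a, b, e⟩, h3, rfl⟩ := Finset.mem_image.1 hw
      rw [mem_spx] at h3
      exact ⟨hs a b e h3, by simp, by simp⟩
    · exact ⟨(hT w hw).1, (hT w hw).2.1, (hT w hw).2.2.1⟩)
  rw [Finset.card_union_of_disjoint hdisj, Finset.card_image_of_injective _ hinj, card_spx] at h1
  exact h1

lemma exists_not (L : Finset (ℕ × ℕ × ℕ)) (i e : ℕ) : ∃ b, (i, b, e) ∉ L := by
  by_contra h
  push Not at h
  have : Set.Infinite (L : Set (ℕ × ℕ × ℕ)) := by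
    apply Set.infinite_of_injective_forall_mem (f := fun b : ℕ => ((i, b, e) : ℕ × ℕ × ℕ))
    · intro a b hab
      simpa using hab
    · intro b; exact h b
  exact this L.finite_toSet

lemma exists_not' (L : Finset (ℕ × ℕ × ℕ)) (i b : ℕ) : ∃ e, (i, b, e) ∉ L := by
  by_contra h
  push Not at h
  have : Set.Infinite (L : Set (ℕ × ℕ × ℕ)) := by
    apply Set.infinite_of_injective_forall_mem (f := fun e : ℕ => ((i, b, e) : ℕ × ℕ × ℕ))
    · intro a b hab
      simpa using hab
    · intro b; exact h b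
  exact this L.finite_toSet

/-- number of columns of row `i` -/
noncomputable def aL (L : Finset (ℕ × ℕ × ℕ)) (i : ℕ) : ℕ := Nat.find (exists_not L i 0)

lemma aL_spec (i : ℕ) : (i, aL L i, 0) ∉ L := Nat.find_spec (exists_not L i 0)

lemma mem_iff_lt_aL (hD : Dom L) (i b : ℕ) : (i, b, 0) ∈ L ↔ b < aL L i := by
  constructor
  · intro h
    by_contra hb
    push Not at hb
    exact aL_spec i (hD i b 0 i (aL L i) 0 h le_rfl (by omega) (by omega))
  · intro h
    by_contra hb
    exact Nat.find_min (exists_not L i 0) h hb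

lemma mem_of_lt_aL (hD : Dom L) {i x b e : ℕ} (h : x + b + e < i + aL L i) (hx : x ≤ i)
    (hp : (i, 0, 0) ∈ L) : (x, b, e) ∈ L := by
  have h1 : 0 < aL L i := (mem_iff_lt_aL hD i 0).1 hp
  have h2 : (i, aL L i - 1, 0) ∈ L := (mem_iff_lt_aL hD i _).2 (by omega)
  exact hD _ _ _ x b e h2 hx (by omega) (by omega)

/-- Any nonempty row: the quadrant at `(aL i, 0)`. -/
lemma row_any (hD : Dom L) {i : ℕ} (hp : (i, 0, 0) ∈ L) : tet i ≤ Q L (aL L i) 0 := by
  have := Q_ge_simplex_add hD (i := i) (y := aL L i) (z := 0) (by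
    intro a b e h
    exact mem_of_lt_aL hD (i := i) (by omega) (by omega) hp) ∅ (by simp)
  simpa using this

/-- The quadrant of a row that is not full at level `k`. -/
lemma row_nonfull (hD : Dom L) {i k : ℕ} (hik : i ≤ k) (hp : (i, 0, 0) ∈ L)
    (hnf : (i, k - i, 0) ∉ L) :
    ∃ y z : ℕ, (i, y, z) ∉ L ∧ y ≤ k - i ∧ z ≤ k - i - y ∧
      (∀ y' < y, (i, y', k - i - y') ∈ L) ∧
      ∀ T : Finset (ℕ × ℕ × ℕ), (∀ w ∈ T, w ∈ L ∧ y ≤ w.2.1 ∧ z ≤ w.2.2 ∧ k ≤ dg w) →
        tet i + T.card ≤ Q L y z := by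
  have hex : ∃ y, y ≤ k - i ∧ (i, y, k - i - y) ∉ L := ⟨k - i, le_rfl, by simpa using hnf⟩
  classical
  let y := Nat.find hex
  have hy := Nat.find_spec hex
  have hymin : ∀ y' < y, (i, y', k - i - y') ∈ L := by
    intro y' hy'
    have := Nat.find_min hex hy'
    by_contra h
    apply this
    exact ⟨by omega, h⟩
  let z := Nat.find (exists_not' L i y)
  have hz : (i, y, z) ∉ L := Nat.find_spec (exists_not' L i y)
  have hzle : z ≤ k - i - y := Nat.find_min' _ hy.2
  have hzmin : ∀ z' < z, (i, y, z') ∈ L := by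
    intro z' hz'
    by_contra h
    exact Nat.find_min (exists_not' L i y) hz' h
  refine ⟨y, z, hz, hy.1, hzle, hymin, ?_⟩
  intro T hT
  apply Q_ge_simplex_add hD
  · intro a b e h
    rcases Nat.eq_zero_or_pos z with hz0 | hz0
    · rcases Nat.eq_zero_or_pos y with hy0 | hy0
      · exfalso
        rw [hz0, hy0] at hz
        exact hz hp
      · have h1 := hymin (y - 1) (by omega)
        refine hD _ _ _ _ _ _ h1 (by omega) (by omega) ?_
        have : y ≤ k - i := hy.1
        omega
    · have h1 := hzmin (z - 1) (by omega)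
      exact hD _ _ _ _ _ _ h1 (by omega) (by omega) (by omega)
  · intro w hw
    obtain ⟨h1, h2, h3, h4⟩ := hT w hw
    refine ⟨h1, h2, h3, ?_⟩
    have : y ≤ k - i := hy.1
    omega

/-- Case `(i,0,k-i) ∈ L`: the extra cells of degree `k`. -/
lemma row_meets (hD : Dom L) {i k f : ℕ} (hik : i ≤ k) (hm : (i, 0, k - i) ∈ L)
    (hnf : (i, k - i, 0) ∉ L) (hf : ∀ a < f, (a, k - a, 0) ∈ L) (hfi : f ≤ i) :
    ∃ y z : ℕ, (i, y, z) ∉ L ∧ tet i + (∑ a ∈ Finset.range i, (i - a) + f) ≤ Q L y z := by
  classical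
  have hp : (i, 0, 0) ∈ L := hD _ _ _ i 0 0 hm le_rfl le_rfl (by omega)
  obtain ⟨y, z, h1, h2, h3, h4, h5⟩ := row_nonfull hD hik hp hnf
  refine ⟨y, z, h1, ?_⟩
  have hy1 : 1 ≤ y := by
    by_contra h
    have hy0 : y = 0 := by omega
    subst hy0
    apply h1
    exact hD _ _ _ i 0 z hm le_rfl le_rfl (by omega)
  have hprev := h4 (y - 1) (by omega)
  let T : Finset (ℕ × ℕ × ℕ) :=
    ((Finset.range i).sigma (fun a => Finset.range (i - a + if a < f then 1 else 0))).image
      (fun q => (q.1, y + q.2, k - q.1 - y - q.2))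
  have hT : ∀ w ∈ T, w ∈ L ∧ y ≤ w.2.1 ∧ z ≤ w.2.2 ∧ k ≤ dg w := by
    intro w hw
    obtain ⟨⟨a, s⟩, h6, rfl⟩ := Finset.mem_image.1 hw
    simp only [Finset.mem_sigma, Finset.mem_range] at h6
    simp only [dg]
    obtain ⟨h6, h7⟩ := h6
    by_cases hs : s < i - a
    · refine ⟨?_, by omega, by omega, by omega⟩
      exact hD _ _ _ _ _ _ hprev (by omega) (by omega) (by omega)
    · have haf : a < f := by
        by_contra h
        rw [if_neg h] at h7
        omega
      rw [if_pos haf] at h7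
      refine ⟨?_, by omega, by omega, by omega⟩
      exact hD _ _ _ _ _ _ (hf a haf) (by omega) (by omega) (by omega)
  have hcard : T.card = ∑ a ∈ Finset.range i, (i - a) + f := by
    rw [Finset.card_image_of_injOn, Finset.card_sigma]
    · simp only [Finset.card_range, Finset.sum_add_distrib]
      congr 1
      rw [Finset.sum_ite, Finset.sum_const_zero, add_zero, Finset.sum_const, smul_eq_mul, mul_one]
      have : (Finset.range i).filter (fun a => a < f) = Finset.range f := by
        ext a; simp only [Finset.mem_filter, Finset.mem_range]; omega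
      rw [this, Finset.card_range]
    · rintro ⟨a, s⟩ _ ⟨a', s'⟩ _ h
      simp only [Prod.mk.injEq] at h
      obtain ⟨rfl, h8, -⟩ := h
      have : s = s' := by omega
      subst this; rfl
  have := h5 T hT
  rw [hcard] at this
  exact this

lemma sum_min (B m : ℕ) (h : B ≤ m) :
    (2 : ℤ) * ((∑ j ∈ Finset.range m, min B (j + 1) : ℕ) : ℤ) = B * (2 * m + 1 - B) := by
  obtain ⟨d, rfl⟩ := Nat.exists_eq_add_of_le h
  clear h
  induction d with
  | zero =>
    have h1 : ∑ j ∈ Finset.range B, min B (j + 1) = ∑ j ∈ Finset.range B, (j + 1) := by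
      apply Finset.sum_congr rfl
      intro j hj
      rw [Finset.mem_range] at hj
      exact min_eq_right (by omega)
    rw [add_zero, h1]
    have h2 : ∀ m : ℕ, (2 : ℤ) * ((∑ j ∈ Finset.range m, (j + 1) : ℕ) : ℤ) = m * (m + 1) := by
      intro m
      induction m with
      | zero => simp
      | succ m ih => rw [Finset.sum_range_succ]; push_cast at ih ⊢; linarith
    rw [h2]; ring
  | succ d ih =>
    rw [← add_assoc, Finset.sum_range_succ, min_eq_left (by omega)]
    push_cast at ih ⊢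
    linarith

/-- The pigeonhole count. -/
lemma pigeon (hD : Dom L) {i k B n : ℕ} (hik : i < k) (hnm : (i, 0, k - i) ∉ L)
    (hn : n ≤ (L.filter (fun w => k ≤ dg w)).card)
    (hB : B ≤ i + 1) (hnB : (2 : ℤ) * n ≤ B * (2 * k + 3 - B)) :
    (n : ℤ) - B * (k - i) ≤ (L.filter (fun w => k ≤ dg w ∧ k - i ≤ w.2.2)).card := by
  classical
  set W := L.filter (fun w => k ≤ dg w ∧ w.2.2 = k - i - 1) with hW
  set E1 := L.filter (fun w => k ≤ dg w ∧ k - i ≤ w.2.2) with hE1
  set E0 := L.filter (fun w => k ≤ dg w ∧ w.2.2 < k - i) with hE0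
  have hrow : ∀ w ∈ L, k ≤ dg w → w.1 < i := by
    rintro ⟨a, b, e⟩ hw hk
    by_contra h
    simp only [dg] at hk h
    exact hnm (hD _ _ _ _ _ _ hw (by omega) (by omega) (by omega))
  have hsplit : (L.filter (fun w => k ≤ dg w)).card = E1.card + E0.card := by
    rw [← Finset.card_union_of_disjoint]
    · congr 1
      ext w
      simp only [hE1, hE0, Finset.mem_filter, Finset.mem_union]
      constructor
      · rintro ⟨h1, h2⟩
        by_cases h : k - i ≤ w.2.2
        · left; exact ⟨h1, h2, h⟩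
        · right; exact ⟨h1, h2, by omega⟩
      · rintro (⟨h1, h2, -⟩ | ⟨h1, h2, -⟩) <;> exact ⟨h1, h2⟩
    · rw [Finset.disjoint_left]
      intro w h1 h2
      simp only [hE1, hE0, Finset.mem_filter] at h1 h2
      omega
  -- (P1)
  have hP1 : E0.card ≤ W.card * (k - i) := by
    have : E0.card ≤ (W ×ˢ Finset.range (k - i)).card := by
      apply Finset.card_le_card_of_injOn
        (fun w => (((w.1, w.2.1 - (k - i - 1 - w.2.2), k - i - 1) : ℕ × ℕ × ℕ), w.2.2))
      · rintro ⟨a, b, e⟩ hw
        simp only [hE0, Finset.coe_filter] at hw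
        obtain ⟨h1, h2, h3⟩ := hw
        have h4 := hrow _ h1 h2
        simp only [dg] at h2 h3 h4
        simp only [Finset.coe_product, Set.mem_prod, Finset.mem_coe, Finset.mem_range, hW,
          Finset.mem_filter, dg]
        refine ⟨⟨hD _ _ _ _ _ _ h1 le_rfl (by omega) (by omega), by omega, trivial⟩, h3⟩
      · rintro ⟨a, b, e⟩ hw ⟨a', b', e'⟩ hw' h
        simp only [hE0, Finset.coe_filter] at hw hw'
        obtain ⟨h1, h2, h3⟩ := hw
        obtain ⟨h1', h2', h3'⟩ := hw'
        have h4 := hrow _ h1 h2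
        have h4' := hrow _ h1' h2'
        simp only [dg] at h2 h3 h4 h2' h3' h4'
        simp only [Prod.mk.injEq] at h ⊢
        omega
    rwa [Finset.card_product, Finset.card_range] at this
  -- (P3)
  have hP3 : ∀ j : ℕ, min W.card (j + 1) ≤ (W.filter (fun w => w.1 ≤ j)).card := by
    intro j
    by_cases hall : ∀ w ∈ W, w.1 ≤ j
    · rw [Finset.filter_true_of_mem hall]; exact min_le_left _ _
    · push Not at hall
      obtain ⟨⟨a, b, e⟩, hw, ha⟩ := hall
      refine le_trans (min_le_right _ _) ?_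
      have : (Finset.range (j + 1)).card ≤ (W.filter (fun w => w.1 ≤ j)).card := by
        apply Finset.card_le_card_of_injOn (fun x => ((x, b + (a - x), e) : ℕ × ℕ × ℕ))
        · intro x hx
          simp only [Finset.coe_range, Set.mem_Iio] at hx
          simp only [hW, Finset.mem_filter, dg] at hw
          simp only at ha
          simp only [Finset.coe_filter, hW, Finset.mem_filter, dg]
          refine ⟨⟨hD _ _ _ _ _ _ hw.1 (by omega) (by omega) (by omega), ?_, hw.2.2⟩, ?_⟩
          · first | omega | (dsimp only [dg] at *; omega)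
          · first | omega | (dsimp only [dg] at *; omega)
        · intro x _ x' _ h
          simp only [Prod.mk.injEq] at h
          exact h.1
      rwa [Finset.card_range] at this
  -- (P2)
  have hP2 : ∑ j ∈ Finset.range (i + 1), (W.filter (fun w => w.1 ≤ i - j)).card ≤ E1.card := by
    have : ((Finset.range (i + 1)).sigma
        (fun j => W.filter (fun w => w.1 ≤ i - j))).card ≤ E1.card := by
      apply Finset.card_le_card_of_injOn
        (fun q => ((q.2.1, q.2.2.1 - 1 - q.1, k - i + q.1) : ℕ × ℕ × ℕ))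
      · rintro ⟨j, ⟨a, b, e⟩⟩ hq
        simp only [Finset.coe_sigma, Set.mem_sigma_iff, Finset.coe_range, Set.mem_Iio,
          Finset.coe_filter, hW, Finset.mem_filter, dg] at hq
        obtain ⟨h1, ⟨h2, h3, h4⟩, h5⟩ := hq
        have h6 := hrow _ h2 h3
        simp only at h6
        simp only [hE1, Finset.coe_filter, dg]
        simp only at h5 h1 h4 h3
        refine ⟨hD _ _ _ _ _ _ h2 le_rfl (by omega) (by omega), ?_, ?_⟩
        · first | omega | (dsimp only [dg] at *; omega)
        · first | omega | (dsimp only [dg] at *; omega)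
      · rintro ⟨j, ⟨a, b, e⟩⟩ hq ⟨j', ⟨a', b', e'⟩⟩ hq' h
        simp only [Finset.coe_sigma, Set.mem_sigma_iff, Finset.coe_range, Set.mem_Iio,
          Finset.coe_filter, hW, Finset.mem_filter, dg] at hq hq'
        obtain ⟨h1, ⟨h2, h3, h4⟩, h5⟩ := hq
        obtain ⟨h1', ⟨h2', h3', h4'⟩, h5'⟩ := hq'
        simp only [Prod.mk.injEq] at h
        simp only at h1 h3 h4 h5 h1' h3' h4' h5'
        obtain ⟨h7, h8, h9⟩ := h
        have hj : j = j' := by omega
        subst hj
        subst h7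
        have hb : b = b' := by omega
        subst hb
        have he : e = e' := by omega
        subst he
        rfl
    rwa [Finset.card_sigma] at this
  -- combine
  by_cases hWB : W.card ≤ B
  · have h1 : (E0.card : ℤ) ≤ B * (k - i) := by
      have h2 : (E0.card : ℤ) ≤ (W.card : ℤ) * ((k - i : ℕ) : ℤ) := by exact_mod_cast hP1
      rw [Nat.cast_sub hik.le] at h2
      have h3 : (W.card : ℤ) ≤ B := by exact_mod_cast hWB
      have h4 : (0 : ℤ) ≤ (k : ℤ) - i := by omega
      nlinarith
    have h5 : (n : ℤ) ≤ E1.card + E0.card := by rw [hsplit] at hn; exact_mod_cast hn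
    linarith
  · push Not at hWB
    have h6 : ∑ j ∈ Finset.range (i + 1), min B (j + 1) ≤ E1.card := by
      refine le_trans ?_ hP2
      have e := Finset.sum_range_reflect (fun j => (W.filter (fun w => w.1 ≤ j)).card) (i + 1)
      have e' : ∑ j ∈ Finset.range (i + 1), (W.filter (fun w => w.1 ≤ i - j)).card =
          ∑ j ∈ Finset.range (i + 1), (W.filter (fun w => w.1 ≤ j)).card := by
        rw [← e]
        apply Finset.sum_congr rfl
        intro j _
        have : i + 1 - 1 - j = i - j := by omega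
        rw [this]
      rw [e']
      apply Finset.sum_le_sum
      intro j _
      exact le_trans (min_le_min_right _ hWB.le) (hP3 j)
    have h7 := sum_min B (i + 1) hB
    have h8 : ((∑ j ∈ Finset.range (i + 1), min B (j + 1) : ℕ) : ℤ) ≤ E1.card := by
      exact_mod_cast h6
    push_cast at h7 h8
    nlinarith

end Pool.Agent.TH205.Hilb.Comb
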