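import Pool.Agent.TH205.Hilb.Points

/-!
# Homomorphisms out of monomial ideals
-/

open Module MvPolynomial

namespace Pool.Agent.TH205.Hilb

variable {K : Type*} [Field K]

/-- The `K`-linear map with prescribed values on monomials. -/
noncomputable def linOf {M : Type*} [AddCommGroup M] [Module K M] (F : ℕ × ℕ × ℕ → M) :
    R3 K →ₗ[K] M :=
  (basisMonomials (Fin 3) K).constr K (fun u => F (u 0, u 1, u 2))

lemma linOf_mono {M : Type*} [AddCommGroup M] [Module K M] (F : ℕ × ℕ × ℕ → M)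
    (w : ℕ × ℕ × ℕ) : linOf (K := K) F (mono w) = F w := by
  have h : (mono w : R3 K) = basisMonomials (Fin 3) K (ex w) := by
    rw [mono_eq, coe_basisMonomials]
  rw [h, linOf, Basis.constr_basis]
  simp

lemma monomial_eq_smul_mono (u : Fin 3 →₀ ℕ) (c : K) :
    (monomial u c : R3 K) = c • mono (u 0, u 1, u 2) := by
  rw [mono_eq, ex_inv, smul_monomial, smul_eq_mul, mul_one]

lemma linOf_mul {I : Ideal (R3 K)} (hI : IsMono I) (F : ℕ × ℕ × ℕ → R3 K ⧸ I)
    (hF : ∀ w, (mono w : R3 K) ∈ I → ∀ v, F (v + w) = Ideal.Quotient.mk I (mono v) * F w)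
    (r f : R3 K) (hf : f ∈ I) :
    linOf (K := K) F (r * f) = Ideal.Quotient.mk I r * linOf (K := K) F f := by
  have h1 : ∀ (w : ℕ × ℕ × ℕ), (mono w : R3 K) ∈ I → ∀ r : R3 K,
      linOf (K := K) F (r * mono w) = Ideal.Quotient.mk I r * F w := by
    intro w hw r
    induction r using MvPolynomial.induction_on' with
    | monomial u c =>
      have e2 : Ideal.Quotient.mk I (c • (mono (u 0, u 1, u 2) : R3 K)) =
        c • Ideal.Quotient.mk I (mono (u 0, u 1, u 2)) := (qmap I).map_smul _ _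
      rw [monomial_eq_smul_mono, smul_mul_assoc, map_smul, mono_mul, linOf_mono, hF w hw, e2,
        smul_mul_assoc]
    | add p q hp hq => rw [add_mul, map_add, hp, hq, map_add, add_mul]
  have h2 := (hI.mem_iff f).1 hf
  rw [f.as_sum, Finset.mul_sum, map_sum, map_sum, Finset.mul_sum]
  apply Finset.sum_congr rfl
  intro u hu
  have h3 : (mono (u 0, u 1, u 2) : R3 K) ∈ I := by
    rw [mono_eq, ex_inv]; exact h2 u hu
  rw [monomial_eq_smul_mono, mul_smul_comm, map_smul, map_smul, linOf_mono, h1 _ h3 r,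
    mul_smul_comm]

/-- The `R`-linear map `I → R ⧸ I` with prescribed values on monomials. -/
noncomputable def homOf {I : Ideal (R3 K)} (hI : IsMono I) (F : ℕ × ℕ × ℕ → R3 K ⧸ I)
    (hF : ∀ w, (mono w : R3 K) ∈ I → ∀ v, F (v + w) = Ideal.Quotient.mk I (mono v) * F w) :
    I →ₗ[R3 K] (R3 K ⧸ I) where
  toFun f := linOf (K := K) F f
  map_add' a b := by rw [Submodule.coe_add, map_add]
  map_smul' r f := linOf_mul hI F hF r f f.2

lemma homOf_mono {I : Ideal (R3 K)} (hI : IsMono I) (F : ℕ × ℕ × ℕ → R3 K ⧸ I)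
    (hF : ∀ w, (mono w : R3 K) ∈ I → ∀ v, F (v + w) = Ideal.Quotient.mk I (mono v) * F w)
    (w : ℕ × ℕ × ℕ) (hw : (mono w : R3 K) ∈ I) :
    homOf hI F hF ⟨mono w, hw⟩ = F w := linOf_mono F w

/-- The monomial ideal of an up-closed set. -/
noncomputable def idealOf (K : Type*) [Field K] (U : Set (ℕ × ℕ × ℕ)) : Ideal (R3 K) :=
  Ideal.span (mono '' U)

lemma idealOf_isMono (U : Set (ℕ × ℕ × ℕ)) : IsMono (idealOf K U) := ⟨U, rfl⟩

lemma mono_mem_idealOf {U : Set (ℕ × ℕ × ℕ)} (hU : ∀ w ∈ U, ∀ v, v + w ∈ U) (w : ℕ × ℕ × ℕ) :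
    (mono w : R3 K) ∈ idealOf K U ↔ w ∈ U := by
  constructor
  · intro h
    have e : (mono '' U : Set (R3 K)) = (fun s => monomial s (1 : K)) '' (ex '' U) := by
      rw [Set.image_image]
      exact Set.image_congr fun w _ => mono_eq w
    rw [idealOf, e, mem_ideal_span_monomial_image] at h
    have h1 : ex w ∈ (mono w : R3 K).support := by
      rw [mono_eq, MvPolynomial.mem_support_iff, coeff_monomial, if_pos rfl]
      exact one_ne_zero
    obtain ⟨_, ⟨s, hs, rfl⟩, hle⟩ := h _ h1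
    have h0 := hle 0
    have h1 := hle 1
    have h2 := hle 2
    simp only [ex_zero', ex_one', ex_two'] at h0 h1 h2
    have : w = (w.1 - s.1, w.2.1 - s.2.1, w.2.2 - s.2.2) + s := by
      apply Prod.ext
      · simp only [Prod.fst_add]; omega
      · apply Prod.ext
        · simp only [Prod.snd_add, Prod.fst_add]; omega
        · simp only [Prod.snd_add]; omega
    rw [this]
    exact hU s hs _
  · intro h
    exact Ideal.subset_span ⟨w, h, rfl⟩

end Pool.Agent.TH205.Hilb
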