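import Pool.Agent.TH205.Hilb.HomOf

/-!
# The ideals `x^c m^{k-c} + m^{k+1}`: colength and a lower bound for the tangent space
-/

open Module MvPolynomial

namespace Pool.Agent.TH205.Hilb

variable {K : Type*} [Field K]

/-- degree of an exponent triple -/
def deg3 (w : ℕ × ℕ × ℕ) : ℕ := w.1 + w.2.1 + w.2.2

/-- exponents of degree `d` with first exponent in `s` -/
def slab (d : ℕ) (s : Finset ℕ) : Finset (ℕ × ℕ × ℕ) :=
  (s.sigma (fun a => Finset.range (d + 1 - a))).image (fun q => (q.1, q.2, d - q.1 - q.2))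

lemma mem_slab {d : ℕ} {s : Finset ℕ} {w : ℕ × ℕ × ℕ} :
    w ∈ slab d s ↔ w.1 ∈ s ∧ deg3 w = d := by
  obtain ⟨a, b, e⟩ := w
  simp only [slab, Finset.mem_image, Finset.mem_sigma, Finset.mem_range, deg3, Prod.mk.injEq]
  constructor
  · rintro ⟨⟨a', b'⟩, ⟨h1, h2⟩, rfl, rfl, rfl⟩
    simp only at h1 h2 ⊢
    exact ⟨h1, by omega⟩
  · rintro ⟨h1, rfl⟩
    exact ⟨⟨a, b⟩, ⟨h1, by simp only; omega⟩, rfl, rfl, by simp only; omega⟩

lemma card_slab (d : ℕ) (s : Finset ℕ) : (slab d s).card = ∑ a ∈ s, (d + 1 - a) := by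
  rw [slab, Finset.card_image_of_injOn]
  · rw [Finset.card_sigma]; simp
  · rintro ⟨a, b⟩ h1 ⟨a', b'⟩ h2 h
    simp only [Prod.mk.injEq] at h
    obtain ⟨rfl, rfl, -⟩ := h
    rfl

/-- Exponents of `x^c m^{k-c} + m^{k+1}`. -/
def UA (k c : ℕ) : Set (ℕ × ℕ × ℕ) := {w | k + 1 ≤ deg3 w ∨ (k ≤ deg3 w ∧ c ≤ w.1)}

lemma UA_up (k c : ℕ) : ∀ w ∈ UA k c, ∀ v, v + w ∈ UA k c := by
  rintro ⟨a, b, e⟩ h ⟨a', b', e'⟩
  simp only [UA, deg3, Set.mem_ofPred_eq, Prod.mk_add_mk] at h ⊢
  omega

/-- The ideal. -/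
noncomputable def idA (K : Type*) [Field K] (k c : ℕ) : Ideal (R3 K) := idealOf K (UA k c)

lemma mem_idA (k c : ℕ) (w : ℕ × ℕ × ℕ) : (mono w : R3 K) ∈ idA K k c ↔ w ∈ UA k c :=
  mono_mem_idealOf (UA_up k c) w

lemma idA_isMono (k c : ℕ) : IsMono (idA K k c) := idealOf_isMono _

/-- complement -/
def LA (k c : ℕ) : Finset (ℕ × ℕ × ℕ) :=
  (Finset.range k).biUnion (fun d => slab d (Finset.range (d + 1))) ∪ slab k (Finset.range c)

lemma mem_LA (k c : ℕ) (w : ℕ × ℕ × ℕ) : w ∈ LA k c ↔ w ∉ UA k c := by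
  obtain ⟨a, b, e⟩ := w
  simp only [LA, UA, Finset.mem_union, Finset.mem_biUnion, Finset.mem_range, mem_slab, deg3,
    Set.mem_ofPred_eq]
  constructor
  · rintro (⟨d, h1, h2, h3⟩ | ⟨h1, h2⟩) <;> omega
  · intro h
    by_cases h' : a + b + e < k
    · left; exact ⟨a + b + e, h', by omega, rfl⟩
    · right; omega

lemma card_LA (k c : ℕ) : (LA k c).card =
    ∑ d ∈ Finset.range k, ∑ a ∈ Finset.range (d + 1), (d + 1 - a) +
      ∑ a ∈ Finset.range c, (k + 1 - a) := by
  rw [LA, Finset.card_union_of_disjoint, Finset.card_biUnion]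
  · simp only [card_slab]
  · intro x _ y _ hxy
    rw [Function.onFun, Finset.disjoint_left]
    intro w h1 h2
    exact hxy ((mem_slab.1 h1).2.symm.trans (mem_slab.1 h2).2)
  · rw [Finset.disjoint_left]
    intro w h1 h2
    simp only [Finset.mem_biUnion, Finset.mem_range, mem_slab] at h1 h2
    obtain ⟨d, h3, h4⟩ := h1
    omega

lemma lam_idA (k c : ℕ) : lam (idA K k c) = (LA k c : Set (ℕ × ℕ × ℕ)) := by
  ext w
  rw [Finset.mem_coe, mem_LA, ← mem_idA (K := K)]
  rfl

instance idA_finite (k c : ℕ) : Module.Finite K (R3 K ⧸ idA K k c) := by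
  have : Finite (lam (idA K k c)) := by rw [lam_idA]; exact (LA k c).finite_toSet
  exact Module.Finite.of_basis (mbas (idA_isMono k c))

lemma finrank_idA (k c : ℕ) : finrank K (R3 K ⧸ idA K k c) = (LA k c).card := by
  rw [finrank_eq_card (idA_isMono k c), lam_idA, Nat.card_coe_set_eq, Set.ncard_coe_finset]

/-- minimal generators -/
def GA (k c : ℕ) : Finset (ℕ × ℕ × ℕ) :=
  slab k (Finset.Ico c (k + 1)) ∪ slab (k + 1) (Finset.range c)

/-- socle -/
def SA (k c : ℕ) : Finset (ℕ × ℕ × ℕ) :=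
  slab k (Finset.range c) ∪ slab (k - 1) (Finset.Ico c k)

/-- extra homs -/
def XA (c : ℕ) : Finset (Σ _ : ℕ, ℕ) := (Finset.range (c + 1)).sigma (fun s => Finset.range s)

lemma card_GA (k c : ℕ) : (GA k c).card =
    ∑ a ∈ Finset.Ico c (k + 1), (k + 1 - a) + ∑ a ∈ Finset.range c, (k + 2 - a) := by
  rw [GA, Finset.card_union_of_disjoint]
  · simp only [card_slab]
  · rw [Finset.disjoint_left]
    intro w h1 h2
    simp only [mem_slab] at h1 h2
    omega

lemma card_SA (k c : ℕ) (hk : 1 ≤ k) : (SA k c).card =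
    ∑ a ∈ Finset.range c, (k + 1 - a) + ∑ a ∈ Finset.Ico c k, (k - a) := by
  rw [SA, Finset.card_union_of_disjoint]
  · simp only [card_slab]
    congr 1
    apply Finset.sum_congr rfl
    intro a _; omega
  · rw [Finset.disjoint_left]
    intro w h1 h2
    simp only [mem_slab] at h1 h2
    omega

lemma card_XA (c : ℕ) : (XA c).card = ∑ s ∈ Finset.range (c + 1), s := by
  rw [XA, Finset.card_sigma]; simp

lemma mk_mono_eq_zero {k c : ℕ} {w : ℕ × ℕ × ℕ} (h : w ∈ UA k c) :
    Ideal.Quotient.mk (idA K k c) (mono w) = 0 :=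
  Ideal.Quotient.eq_zero_iff_mem.2 ((mem_idA k c w).2 h)

/-- socle hom data -/
noncomputable def Fs (K : Type*) [Field K] (k c : ℕ) (g t : ℕ × ℕ × ℕ) (w : ℕ × ℕ × ℕ) :
    R3 K ⧸ idA K k c :=
  if w = g then Ideal.Quotient.mk _ (mono t) else 0

lemma Fs_lin {k c : ℕ} (hk : 1 ≤ k) {g t : ℕ × ℕ × ℕ} (hg : g ∈ GA k c) (ht : t ∈ SA k c) :
    ∀ w, (mono w : R3 K) ∈ idA K k c → ∀ v,
      Fs K k c g t (v + w) = Ideal.Quotient.mk _ (mono v) * Fs K k c g t w := by
  intro w hw v
  rw [mem_idA] at hw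
  by_cases hv : v = 0
  · subst hv; rw [zero_add, mono_zero, map_one, one_mul]
  · have hv' : 1 ≤ deg3 v := by
      by_contra h
      apply hv
      obtain ⟨a, b, e⟩ := v
      simp only [deg3] at h
      have : a = 0 ∧ b = 0 ∧ e = 0 := by omega
      obtain ⟨rfl, rfl, rfl⟩ := this; rfl
    have h1 : v + w ≠ g := by
      rintro rfl
      obtain ⟨a, b, e⟩ := v
      obtain ⟨a', b', e'⟩ := w
      simp only [GA, UA, deg3, Set.mem_ofPred_eq, Prod.mk_add_mk, Finset.mem_union, mem_slab,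
        Finset.mem_Ico, Finset.mem_range] at hg hw hv'
      omega
    rw [Fs, if_neg h1, Fs]
    split_ifs with h2
    · rw [← map_mul, mono_mul, mk_mono_eq_zero]
      obtain ⟨a, b, e⟩ := v
      obtain ⟨a', b', e'⟩ := t
      simp only [SA, UA, deg3, Set.mem_ofPred_eq, Prod.mk_add_mk, Finset.mem_union, mem_slab,
        Finset.mem_Ico, Finset.mem_range] at ht hv' ⊢
      omega
    · rw [mul_zero]

/-- extra hom data -/
noncomputable def Fx (K : Type*) [Field K] (k c s β : ℕ) (w : ℕ × ℕ × ℕ) : R3 K ⧸ idA K k c :=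
  if c ≤ w.1 then Ideal.Quotient.mk _ (mono (w.1 - s, w.2.1 + β, w.2.2 + (s - 1 - β))) else 0

lemma Fx_lin {k c s β : ℕ} (hs : s ≤ c) (hβ : β < s) :
    ∀ w, (mono w : R3 K) ∈ idA K k c → ∀ v,
      Fx K k c s β (v + w) = Ideal.Quotient.mk _ (mono v) * Fx K k c s β w := by
  rintro ⟨a, b, e⟩ hw ⟨a', b', e'⟩
  rw [mem_idA] at hw
  simp only [UA, deg3, Set.mem_ofPred_eq] at hw
  simp only [Fx, Prod.mk_add_mk]
  by_cases h1 : c ≤ a
  · rw [if_pos h1, if_pos (by omega), ← map_mul, mono_mul]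
    congr 2
    simp only [Prod.mk_add_mk, Prod.mk.injEq]
    omega
  · rw [if_neg h1, mul_zero]
    split_ifs with h2
    · apply mk_mono_eq_zero
      simp only [UA, deg3, Set.mem_ofPred_eq]
      left
      omega
    · rfl

/-- the family of homs -/
noncomputable def fam (K : Type*) [Field K] (k c : ℕ) (hk : 1 ≤ k) :
    (GA k c × SA k c) ⊕ XA c → (idA K k c →ₗ[R3 K] (R3 K ⧸ idA K k c))
  | Sum.inl q => homOf (idA_isMono k c) (Fs K k c q.1 q.2) (Fs_lin hk q.1.2 q.2.2)
  | Sum.inr x => homOf (idA_isMono k c) (Fx K k c x.1.1 x.1.2)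
      (Fx_lin (by
        have := (Finset.mem_sigma.1 x.2).1
        have := Finset.mem_range.1 this
        omega) (by
        have := (Finset.mem_sigma.1 x.2).2
        exact Finset.mem_range.1 this))

lemma fam_inl {k c : ℕ} (hk : 1 ≤ k) (q : GA k c × SA k c) (w : ℕ × ℕ × ℕ)
    (hw : (mono w : R3 K) ∈ idA K k c) :
    fam K k c hk (Sum.inl q) ⟨mono w, hw⟩ = Fs K k c q.1 q.2 w := by
  show homOf (idA_isMono k c) (Fs K k c q.1 q.2) (Fs_lin hk q.1.2 q.2.2) ⟨mono w, hw⟩ = _
  exact homOf_mono _ _ _ _ _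

lemma fam_inr {k c : ℕ} (hk : 1 ≤ k) (x : XA c) (w : ℕ × ℕ × ℕ)
    (hw : (mono w : R3 K) ∈ idA K k c) :
    fam K k c hk (Sum.inr x) ⟨mono w, hw⟩ = Fx K k c x.1.1 x.1.2 w := by
  have hx := Finset.mem_sigma.1 x.2
  show homOf (idA_isMono k c) (Fx K k c x.1.1 x.1.2) (Fx_lin (by
        have := Finset.mem_range.1 hx.1
        omega) (Finset.mem_range.1 hx.2)) ⟨mono w, hw⟩ = _
  exact homOf_mono _ _ _ _ _

/-- coordinate of `mk (mono w)` -/
lemma coord_mono {k c : ℕ} (u : lam (idA K k c)) (w : ℕ × ℕ × ℕ) :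
    (mbas (idA_isMono k c)).coord u (Ideal.Quotient.mk _ (mono w)) =
      if w = u then 1 else 0 := by
  by_cases hw : w ∈ lam (idA K k c)
  · have : Ideal.Quotient.mk (idA K k c) (mono w) = mbas (idA_isMono k c) ⟨w, hw⟩ := by
      rw [mbas_apply]
    rw [this, Basis.coord_apply, Basis.repr_self, Finsupp.single_apply]
    congr 1
    rw [Subtype.ext_iff]
  · have h1 : Ideal.Quotient.mk (idA K k c) (mono w) = 0 := by
      rw [Ideal.Quotient.eq_zero_iff_mem]
      by_contra h; exact hw h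
    rw [h1, map_zero, if_neg]
    rintro rfl
    exact hw u.2

theorem lower_A (k c : ℕ) (hk : 1 ≤ k) (hc : c ≤ k) :
    (GA k c).card * (SA k c).card + (XA c).card ≤
      finrank K (idA K k c →ₗ[R3 K] (R3 K ⧸ idA K k c)) := by
  classical
  have hli : LinearIndependent K (fam K k c hk) := by
    rw [Fintype.linearIndependent_iff]
    intro a ha
    rw [Fintype.sum_sum_type] at ha
    have hb : ∀ x : XA c, a (Sum.inr x) = 0 := by
      rintro ⟨⟨s, β⟩, hx⟩
      have hx1 : s < c + 1 := Finset.mem_range.1 (Finset.mem_sigma.1 hx).1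
      have hx2 : β < s := Finset.mem_range.1 (Finset.mem_sigma.1 hx).2
      have hw0 : (mono (c, 0, k - c) : R3 K) ∈ idA K k c := by
        rw [mem_idA]; simp only [UA, deg3, Set.mem_ofPred_eq]; omega
      have hu : ((c - s, β, k - c + (s - 1 - β)) : ℕ × ℕ × ℕ) ∈ lam (idA K k c) := by
        rw [lam_idA, Finset.mem_coe, mem_LA]; simp only [UA, deg3, Set.mem_ofPred_eq]; omega
      have h1 := LinearMap.congr_fun ha ⟨_, hw0⟩
      rw [LinearMap.add_apply, LinearMap.sum_apply, LinearMap.sum_apply, LinearMap.zero_apply] at h1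
      have h2 := congrArg ((mbas (idA_isMono k c)).coord ⟨_, hu⟩) h1
      rw [map_add, map_sum, map_sum, map_zero] at h2
      have h3 : ∀ q : GA k c × SA k c, (mbas (idA_isMono k c)).coord ⟨_, hu⟩
          ((a (Sum.inl q) • fam K k c hk (Sum.inl q)) ⟨_, hw0⟩) = 0 := by
        rintro ⟨g, t⟩
        rw [LinearMap.smul_apply, map_smul]
        rw [fam_inl, Fs]
        split_ifs with h4
        · rw [coord_mono, if_neg, smul_zero]
          intro h5
          have ht := t.2
          rw [h5] at ht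
          simp only [SA, deg3, Finset.mem_union, mem_slab, Finset.mem_Ico, Finset.mem_range] at ht
          omega
        · rw [map_zero, smul_zero]
      rw [Finset.sum_eq_zero (fun q _ => h3 q), zero_add, Finset.sum_eq_single ⟨⟨s, β⟩, hx⟩] at h2
      · rw [LinearMap.smul_apply, map_smul] at h2
        rw [fam_inr, Fx, if_pos (by simp), coord_mono, if_pos, smul_eq_mul, mul_one] at h2
        · exact h2
        · simp
      · rintro ⟨⟨s', β'⟩, hx'⟩ _ hne
        have hx1' : s' < c + 1 := Finset.mem_range.1 (Finset.mem_sigma.1 hx').1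
        have hx2' : β' < s' := Finset.mem_range.1 (Finset.mem_sigma.1 hx').2
        rw [LinearMap.smul_apply, map_smul]
        rw [fam_inr, Fx, if_pos (by simp), coord_mono, if_neg, smul_zero]
        intro h5
        simp only [Prod.mk.injEq] at h5
        apply hne
        have h6 : s' = s := by omega
        have h7 : β' = β := by omega
        subst h6; subst h7; rfl
      · intro h; exact absurd (Finset.mem_univ _) h
    have hA : ∀ q : GA k c × SA k c, a (Sum.inl q) = 0 := by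
      rintro ⟨⟨g, hg⟩, ⟨t, ht⟩⟩
      have hw0 : (mono g : R3 K) ∈ idA K k c := by
        rw [mem_idA]
        obtain ⟨a1, a2, a3⟩ := g
        simp only [GA, deg3, Finset.mem_union, mem_slab, Finset.mem_Ico, Finset.mem_range] at hg
        simp only [UA, deg3, Set.mem_ofPred_eq]; omega
      have hu : t ∈ lam (idA K k c) := by
        rw [lam_idA, Finset.mem_coe, mem_LA]
        obtain ⟨a1, a2, a3⟩ := t
        simp only [SA, deg3, Finset.mem_union, mem_slab, Finset.mem_Ico, Finset.mem_range] at ht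
        simp only [UA, deg3, Set.mem_ofPred_eq]; omega
      have h1 := LinearMap.congr_fun ha ⟨_, hw0⟩
      rw [LinearMap.add_apply, LinearMap.sum_apply, LinearMap.sum_apply, LinearMap.zero_apply] at h1
      have h2 := congrArg ((mbas (idA_isMono k c)).coord ⟨_, hu⟩) h1
      rw [map_add, map_sum, map_sum, map_zero] at h2
      have h3 : ∀ x : XA c, (mbas (idA_isMono k c)).coord ⟨_, hu⟩
          ((a (Sum.inr x) • fam K k c hk (Sum.inr x)) ⟨_, hw0⟩) = 0 := by
        intro x
        rw [hb x, zero_smul, LinearMap.zero_apply, map_zero]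
      rw [Finset.sum_eq_zero (fun q _ => h3 q), add_zero,
        Finset.sum_eq_single ⟨⟨g, hg⟩, ⟨t, ht⟩⟩] at h2
      · rw [LinearMap.smul_apply, map_smul] at h2
        rw [fam_inl, Fs, if_pos rfl, coord_mono, if_pos rfl, smul_eq_mul, mul_one] at h2
        exact h2
      · rintro ⟨⟨g', hg'⟩, ⟨t', ht'⟩⟩ _ hne
        rw [LinearMap.smul_apply, map_smul]
        rw [fam_inl, Fs]
        split_ifs with h4
        · rw [coord_mono, if_neg, smul_zero]
          intro h5
          apply hne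
          simp only at h5
          subst h4; subst h5; rfl
        · rw [map_zero, smul_zero]
      · intro h; exact absurd (Finset.mem_univ _) h
    rintro (q | x)
    · exact hA q
    · exact hb x
  have := hli.fintype_card_le_finrank
  rw [Fintype.card_sum, Fintype.card_prod, Fintype.card_coe, Fintype.card_coe,
    Fintype.card_coe] at this
  exact this

end Pool.Agent.TH205.Hilb
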