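import Pool.Agent.TH205.Hilb.CombMain
import Pool.Agent.TH205.Hilb.LowerA

/-!
# Smallest pure exponent: assembly
-/

open Module MvPolynomial

namespace Pool.Agent.TH205.Hilb

variable {K : Type*} [Field K]

/-- strong stability, for all monomials -/
def Stable (I : Ideal (R3 K)) : Prop :=
  ∀ a b c : ℕ, (mono (a, b, c) : R3 K) ∈ I →
    (0 < c → (mono (a + 1, b, c - 1) : R3 K) ∈ I ∧ (mono (a, b + 1, c - 1) : R3 K) ∈ I) ∧
    (0 < b → (mono (a + 1, b - 1, c) : R3 K) ∈ I)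

lemma mono_up {I : Ideal (R3 K)} {a b c a' b' c' : ℕ} (h : (mono (a, b, c) : R3 K) ∈ I)
    (h1 : a ≤ a') (h2 : b ≤ b') (h3 : c ≤ c') : (mono (a', b', c') : R3 K) ∈ I := by
  have e : (mono (a', b', c') : R3 K) = mono (a' - a, b' - b, c' - c) * mono (a, b, c) := by
    rw [mono_mul]
    congr 1
    simp only [Prod.mk_add_mk, Prod.mk.injEq]
    omega
  rw [e]
  exact I.mul_mem_left _ h

/-- minimal generators -/
def MinGen (I : Ideal (R3 K)) (a b c : ℕ) : Prop :=
  (mono (a, b, c) : R3 K) ∈ I ∧ (0 < a → (mono (a - 1, b, c) : R3 K) ∉ I) ∧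
    (0 < b → (mono (a, b - 1, c) : R3 K) ∉ I) ∧ (0 < c → (mono (a, b, c - 1) : R3 K) ∉ I)

lemma stable_of_minGen {I : Ideal (R3 K)}
    (h : ∀ a b c : ℕ, MinGen I a b c →
      (0 < c → (mono (a + 1, b, c - 1) : R3 K) ∈ I ∧ (mono (a, b + 1, c - 1) : R3 K) ∈ I) ∧
      (0 < b → (mono (a + 1, b - 1, c) : R3 K) ∈ I)) : Stable I := by
  intro a b c
  induction hn : a + b + c using Nat.strong_induction_on generalizing a b c with
  | _ n ih =>
    intro hI
    by_cases hg : MinGen I a b c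
    · exact h a b c hg
    · have h1 : (0 < a ∧ (mono (a - 1, b, c) : R3 K) ∈ I) ∨
          (0 < b ∧ (mono (a, b - 1, c) : R3 K) ∈ I) ∨
          (0 < c ∧ (mono (a, b, c - 1) : R3 K) ∈ I) := by
        by_contra hcon
        push Not at hcon
        exact hg ⟨hI, hcon.1, hcon.2.1, hcon.2.2⟩
      rcases h1 with ⟨ha, h1⟩ | ⟨hb, h1⟩ | ⟨hc, h1⟩
      · have h2 := ih (a - 1 + b + c) (by omega) (a - 1) b c rfl h1
        refine ⟨fun hc => ⟨?_, ?_⟩, fun hb => ?_⟩
        · exact mono_up (h2.1 hc).1 (by omega) le_rfl le_rfl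
        · exact mono_up (h2.1 hc).2 (by omega) le_rfl le_rfl
        · exact mono_up (h2.2 hb) (by omega) le_rfl le_rfl
      · have h2 := ih (a + (b - 1) + c) (by omega) a (b - 1) c rfl h1
        refine ⟨fun hc => ⟨?_, ?_⟩, fun _ => ?_⟩
        · exact mono_up (h2.1 hc).1 le_rfl (by omega) le_rfl
        · exact mono_up (h2.1 hc).2 le_rfl (by omega) le_rfl
        · exact mono_up h1 (by omega) le_rfl le_rfl
      · refine ⟨fun _ => ⟨?_, ?_⟩, fun hb => ?_⟩
        · exact mono_up h1 (by omega) le_rfl le_rfl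
        · exact mono_up h1 le_rfl (by omega) le_rfl
        · have h2 := ih (a + b + (c - 1)) (by omega) a b (c - 1) rfl h1
          exact mono_up (h2.2 hb) le_rfl le_rfl (by omega)

lemma zy_moves {I : Ideal (R3 K)} (hS : Stable I) (a b c n : ℕ)
    (h : (mono (a, b, c + n) : R3 K) ∈ I) : (mono (a, b + n, c) : R3 K) ∈ I := by
  induction n generalizing b with
  | zero => exact h
  | succ n ih =>
    have h1 := ((hS a b (c + (n + 1)) h).1 (by omega)).2
    have h2 : c + (n + 1) - 1 = c + n := by omega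
    rw [h2] at h1
    have h3 := ih (b + 1) h1
    have h4 : b + 1 + n = b + (n + 1) := by omega
    rwa [h4] at h3

lemma yx_moves {I : Ideal (R3 K)} (hS : Stable I) (a b c n : ℕ)
    (h : (mono (a, b + n, c) : R3 K) ∈ I) : (mono (a + n, b, c) : R3 K) ∈ I := by
  induction n generalizing a with
  | zero => exact h
  | succ n ih =>
    have h1 := (hS a (b + (n + 1)) c h).2 (by omega)
    have h2 : b + (n + 1) - 1 = b + n := by omega
    rw [h2] at h1
    have h3 := ih (a + 1) h1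
    have h4 : a + 1 + n = a + (n + 1) := by omega
    rwa [h4] at h3

lemma dom_of_stable {I : Ideal (R3 K)} (hS : Stable I) (L : Finset (ℕ × ℕ × ℕ))
    (hL : ∀ w, w ∈ L ↔ (mono w : R3 K) ∉ I) : Comb.Dom L := by
  intro a b e a' b' e' hw h1 h2 h3
  rw [hL] at hw ⊢
  intro hI
  apply hw
  have g1 : (mono (a', b', e + (a + b - (a' + b'))) : R3 K) ∈ I :=
    mono_up hI le_rfl le_rfl (by omega)
  have g2 := zy_moves hS a' b' e _ g1
  have h4 : b' + (a + b - (a' + b')) = b + (a - a') := by omega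
  rw [h4] at g2
  have g3 := yx_moves hS a' b e (a - a') g2
  have h5 : a' + (a - a') = a := by omega
  rwa [h5] at g3

lemma card_LA' (k c : ℕ) (hc : c ≤ k) : (LA k c).card = Comb.tet k + Comb.NN k c := by
  rw [card_LA]
  congr 1
  have h1 : (6 : ℤ) * ((∑ d ∈ Finset.range k, ∑ a ∈ Finset.range (d + 1), (d + 1 - a) : ℕ) : ℤ) =
      6 * Comb.tet k := by
    rw [Comb.six_tet]
    clear hc
    induction k with
    | zero => simp
    | succ m ih =>
      rw [Finset.sum_range_succ]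
      have h3 := Comb.sum_sub (m + 1) (m + 1) le_rfl
      push_cast at ih h3 ⊢
      linarith
  have h2 : ((∑ d ∈ Finset.range k, ∑ a ∈ Finset.range (d + 1), (d + 1 - a) : ℕ) : ℤ) =
      Comb.tet k := by linarith
  exact_mod_cast h2

lemma count_A (k c : ℕ) (hk : 1 ≤ k) (hc : c ≤ k) :
    (4 : ℤ) * ((GA k c).card * (SA k c).card + (XA c).card : ℕ) =
      12 * ((LA k c).card : ℤ) + (k - 1) * k * (k + 1) * (k + 2) +
        4 * c * (k ^ 2 - k - 3 + 3 * c) := by
  have hG : (2 : ℤ) * (GA k c).card = (k + 1) * (k + 2) - c * (2 * k + 3 - c) + c * (2 * k + 5 - c) := by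
    rw [card_GA]
    have h1 := Comb.sum_sub (k + 1) (k + 1) le_rfl
    have h2 := Comb.sum_sub c (k + 1) (by omega)
    have h3 := Comb.sum_sub c (k + 2) (by omega)
    have h4 := Finset.sum_range_add_sum_Ico (fun a => k + 1 - a) (show c ≤ k + 1 by omega)
    have h5 : ((∑ a ∈ Finset.range c, (k + 1 - a) : ℕ) : ℤ) +
        ((∑ a ∈ Finset.Ico c (k + 1), (k + 1 - a) : ℕ) : ℤ) =
        ((∑ a ∈ Finset.range (k + 1), (k + 1 - a) : ℕ) : ℤ) := by exact_mod_cast h4
    rw [Nat.cast_add]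
    generalize ((∑ a ∈ Finset.range c, (k + 1 - a) : ℕ) : ℤ) = u1 at *
    generalize ((∑ a ∈ Finset.Ico c (k + 1), (k + 1 - a) : ℕ) : ℤ) = u2 at *
    generalize ((∑ a ∈ Finset.range (k + 1), (k + 1 - a) : ℕ) : ℤ) = u3 at *
    generalize ((∑ a ∈ Finset.range c, (k + 2 - a) : ℕ) : ℤ) = u4 at *
    push_cast at h1 h2 h3
    linarith
  have hS : (2 : ℤ) * (SA k c).card = c * (2 * k + 3 - c) + (k * (k + 1) - c * (2 * k + 1 - c)) := by
    rw [card_SA k c hk]
    have h1 := Comb.sum_sub k k le_rfl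
    have h2 := Comb.sum_sub c k hc
    have h3 := Comb.sum_sub c (k + 1) (by omega)
    have h4 := Finset.sum_range_add_sum_Ico (fun a => k - a) hc
    have h5 : ((∑ a ∈ Finset.range c, (k - a) : ℕ) : ℤ) +
        ((∑ a ∈ Finset.Ico c k, (k - a) : ℕ) : ℤ) =
        ((∑ a ∈ Finset.range k, (k - a) : ℕ) : ℤ) := by exact_mod_cast h4
    rw [Nat.cast_add]
    generalize ((∑ a ∈ Finset.range c, (k - a) : ℕ) : ℤ) = u1 at *
    generalize ((∑ a ∈ Finset.Ico c k, (k - a) : ℕ) : ℤ) = u2 at *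
    generalize ((∑ a ∈ Finset.range k, (k - a) : ℕ) : ℤ) = u3 at *
    generalize ((∑ a ∈ Finset.range c, (k + 1 - a) : ℕ) : ℤ) = u4 at *
    push_cast at h1 h2 h3
    linarith
  have hX : (2 : ℤ) * (XA c).card = c * (c + 1) := by
    rw [card_XA]
    have : ∀ n : ℕ, (2 : ℤ) * ((∑ s ∈ Finset.range (n + 1), s : ℕ) : ℤ) = n * (n + 1) := by
      intro n
      induction n with
      | zero => simp
      | succ n ih => rw [Finset.sum_range_succ]; push_cast at ih ⊢; linarith
    exact this c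
  have hL : (12 : ℤ) * (LA k c).card = 2 * (k * (k + 1) * (k + 2)) + 6 * (c * (2 * k + 3 - c)) := by
    rw [card_LA' k c hc]
    have h1 := Comb.six_tet k
    have h2 := Comb.two_NN k c (by omega)
    push_cast
    linarith
  have e : (4 : ℤ) * ((GA k c).card * (SA k c).card + (XA c).card : ℕ) =
      (2 * (GA k c).card) * (2 * (SA k c).card) + 2 * (2 * (XA c).card) := by
    push_cast; ring
  rw [e, hG, hS, hX, hL]
  ring

/-- There is a point of colength `l` with large tangent space. -/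
lemma exists_large [Infinite K] (k c l : ℕ) (hk : 1 ≤ k) (hc : c ≤ k)
    (hl : Comb.tet k + Comb.NN k c ≤ l) :
    ∃ J : Ideal (R3 K), Module.Finite K (R3 K ⧸ J) ∧ finrank K (R3 K ⧸ J) = l ∧
      12 * (l : ℤ) + (k - 1) * k * (k + 1) * (k + 2) + 4 * c * (k ^ 2 - k - 3 + 3 * c) ≤
        4 * (finrank K (J →ₗ[R3 K] (R3 K ⧸ J)) : ℤ) := by
  obtain ⟨r, hr⟩ := Nat.exists_eq_add_of_le hl
  obtain ⟨J, hJ, h1, h2⟩ := exists_add_points (idA K k c) (idA_finite k c) r
  refine ⟨J, hJ, ?_, ?_⟩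
  · rw [h1, finrank_idA, card_LA' k c hc, hr]
  · have h3 := lower_A (K := K) k c hk hc
    have h4 := count_A k c hk hc
    have h5 := card_LA' k c hc
    have h6 : (((GA k c).card * (SA k c).card + (XA c).card : ℕ) : ℤ) + 3 * r ≤
        (finrank K (J →ₗ[R3 K] (R3 K ⧸ J)) : ℤ) := by
      have : (GA k c).card * (SA k c).card + (XA c).card + 3 * r ≤
        finrank K (J →ₗ[R3 K] (R3 K ⧸ J)) := by omega
      exact_mod_cast this
    have h7 : (l : ℤ) = (LA k c).card + r := by rw [hr, h5]; push_cast; ring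
    rw [h7]
    linarith

theorem main [Infinite K] (k l : ℕ) (hk : 1 ≤ k) (hl : (k + 2).choose 3 ≤ l)
    (hl' : l < (k + 3).choose 3) (I : Ideal (R3 K)) (hI : IsMono I) (hS : Stable I)
    (hfin : Module.Finite K (R3 K ⧸ I)) (hrk : finrank K (R3 K ⧸ I) = l)
    (hmax : ∀ J : Ideal (R3 K), Module.Finite K (R3 K ⧸ J) → finrank K (R3 K ⧸ J) = l →
      finrank K (J →ₗ[R3 K] (R3 K ⧸ J)) ≤ finrank K (I →ₗ[R3 K] (R3 K ⧸ I))) :
    IsLeast {m : ℕ | (X 0 : R3 K) ^ m ∈ I} k := by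
  classical
  obtain ⟨L, hL⟩ : ∃ L : Finset (ℕ × ℕ × ℕ), ∀ w, w ∈ L ↔ (mono w : R3 K) ∉ I := by
    refine ⟨(lam_finite hI).toFinset, fun w => ?_⟩
    rw [Set.Finite.mem_toFinset]; rfl
  have hcard : L.card = l := by
    rw [← hrk, finrank_eq_card hI]
    have : lam I = (L : Set (ℕ × ℕ × ℕ)) := by
      ext w; exact (hL w).symm
    rw [this, Nat.card_coe_set_eq, Set.ncard_coe_finset]
  have hD := dom_of_stable hS L hL
  have hX : ∀ m : ℕ, (X 0 : R3 K) ^ m ∈ I ↔ (mono (m, 0, 0) : R3 K) ∈ I := by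
    intro m; simp [mono]
  have hex : ∃ m, (mono (m, 0, 0) : R3 K) ∈ I := by
    by_contra h
    push Not at h
    have : Set.Infinite (L : Set (ℕ × ℕ × ℕ)) := by
      apply Set.infinite_of_injective_forall_mem (f := fun b : ℕ => ((b, 0, 0) : ℕ × ℕ × ℕ))
      · intro a b hab
        simpa using hab
      · intro b; rw [Finset.mem_coe, hL]; exact h b
    exact this L.finite_toSet
  obtain ⟨p, hp⟩ : ∃ p, p = Nat.find hex := ⟨_, rfl⟩
  have hps : (mono (p, 0, 0) : R3 K) ∈ I := hp ▸ Nat.find_spec hex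
  have hpL : (p, 0, 0) ∉ L := by rw [hL]; simpa using hps
  have hpos : ∀ i < p, (i, 0, 0) ∈ L := by
    intro i hi
    rw [hL]
    intro h
    have := Nat.find_min' hex h
    omega
  have htk : Comb.tet k ≤ L.card := by rw [hcard]; exact hl
  have htk' : L.card < Comb.tet (k + 1) := by rw [hcard]; exact hl'
  have hl1 : 1 ≤ L.card := by
    have : 1 ≤ Comb.tet k := Nat.choose_pos (by omega)
    omega
  have hp1 : 1 ≤ p := by
    by_contra h
    have hp0 : p = 0 := by omega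
    subst hp0
    obtain ⟨⟨a, b, e⟩, hw⟩ := Finset.card_pos.1 hl1
    exact hpL (hD _ _ _ _ _ _ hw (by omega) (by omega) (by omega))
  have hpk : p ≤ k := Comb.p_le hD hpos htk'
  have hkp : k ≤ p := by
    by_contra hlt
    push Not at hlt
    obtain ⟨c, hc, hcl, y, z, hyz, hQ⟩ := Comb.comb hD hpos hpL hp1 (by omega) htk htk'
    rw [hcard] at hcl
    obtain ⟨J, hJ1, hJ2, hJ3⟩ := exists_large (K := K) k c l hk hc hcl
    have h1 := hmax J hJ1 hJ2
    have h2 := tangent_le hI L hL p hps y z (by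
      intro i hi
      have := hyz i hi
      rw [hL] at this
      simpa using this)
    have h3 : ((finrank K (I →ₗ[R3 K] (R3 K ⧸ I)) : ℕ) : ℤ) +
        2 * ∑ i ∈ Finset.range p, (Comb.Q L (y i) (z i) : ℤ) ≤ l + 2 * (p * l) := by
      rw [← hcard]
      exact_mod_cast h2
    have h4 : ((finrank K (J →ₗ[R3 K] (R3 K ⧸ J)) : ℕ) : ℤ) ≤
        (finrank K (I →ₗ[R3 K] (R3 K ⧸ I)) : ℤ) := by exact_mod_cast h1
    rw [hcard] at hQ
    linarith
  have hpe : p = k := le_antisymm hpk hkp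
  subst hpe
  constructor
  · show (X 0 : R3 K) ^ p ∈ I
    rw [hX]; exact hps
  · intro m hm
    have hm' : (mono (m, 0, 0) : R3 K) ∈ I := (hX m).1 hm
    rw [hp]
    exact Nat.find_min' hex hm'

end Pool.Agent.TH205.Hilb
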