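import Pool.Agent.TH205.Hilb.TangentLe

/-!
# Monomial ideals of `K[x,y,z]`: the monomial basis of the quotient
-/

open Module MvPolynomial

namespace Pool.Agent.TH205.Hilb

variable {K : Type*} [Field K]

/-- exponent vector of a triple -/
noncomputable def ex (w : ℕ × ℕ × ℕ) : Fin 3 →₀ ℕ :=
  Finsupp.single 0 w.1 + Finsupp.single 1 w.2.1 + Finsupp.single 2 w.2.2

@[simp] lemma ex_zero' (w : ℕ × ℕ × ℕ) : ex w 0 = w.1 := by
  simp [ex]

@[simp] lemma ex_one' (w : ℕ × ℕ × ℕ) : ex w 1 = w.2.1 := by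
  simp [ex]

@[simp] lemma ex_two' (w : ℕ × ℕ × ℕ) : ex w 2 = w.2.2 := by
  simp [ex]

lemma ex_inv (u : Fin 3 →₀ ℕ) : ex (u 0, u 1, u 2) = u := by
  ext i
  fin_cases i
  · exact ex_zero' _
  · exact ex_one' _
  · exact ex_two' _

lemma ex_injective : Function.Injective ex := by
  intro a b h
  have h0 := DFunLike.congr_fun h 0
  have h1 := DFunLike.congr_fun h 1
  have h2 := DFunLike.congr_fun h 2
  simp only [ex_zero', ex_one', ex_two'] at h0 h1 h2
  exact Prod.ext h0 (Prod.ext h1 h2)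

/-- The monomial `x^a y^b z^c`. -/
noncomputable def mono (w : ℕ × ℕ × ℕ) : R3 K := X 0 ^ w.1 * X 1 ^ w.2.1 * X 2 ^ w.2.2

lemma mono_eq (w : ℕ × ℕ × ℕ) : (mono w : R3 K) = monomial (ex w) 1 := by
  simp only [mono, ex, X_pow_eq_monomial, monomial_mul, mul_one]

lemma mono_mul (w w' : ℕ × ℕ × ℕ) : (mono w : R3 K) * mono w' = mono (w + w') := by
  simp only [mono, Prod.fst_add, Prod.snd_add, pow_add]; ring

lemma mono_zero : (mono 0 : R3 K) = 1 := by simp [mono]

/-- Monomial ideals. -/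
def IsMono (I : Ideal (R3 K)) : Prop := ∃ S : Set (ℕ × ℕ × ℕ), I = Ideal.span (mono '' S)

lemma IsMono.mem_iff {I : Ideal (R3 K)} (h : IsMono I) (f : R3 K) :
    f ∈ I ↔ ∀ u ∈ f.support, monomial u (1 : K) ∈ I := by
  obtain ⟨S, rfl⟩ := h
  have e : (mono '' S : Set (R3 K)) = (fun s => monomial s (1 : K)) '' (ex '' S) := by
    rw [Set.image_image]
    exact Set.image_congr fun w _ => mono_eq w
  rw [e, mem_ideal_span_monomial_image]
  refine forall₂_congr fun u _ => ?_
  rw [mem_ideal_span_monomial_image]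
  simp

/-- The exponents of the monomials outside `I`. -/
def lam (I : Ideal (R3 K)) : Set (ℕ × ℕ × ℕ) := {w | mono w ∉ I}

lemma linIndep {I : Ideal (R3 K)} (h : IsMono I) :
    LinearIndependent K (fun w : lam I => Ideal.Quotient.mk I (mono (w : ℕ × ℕ × ℕ))) := by
  classical
  rw [linearIndependent_iff']
  intro s g hg i hi
  have h1 : (∑ w ∈ s, g w • (mono (w : ℕ × ℕ × ℕ) : R3 K)) ∈ I := by
    rw [← Ideal.Quotient.eq_zero_iff_mem]
    have := map_sum (qmap I) (fun w => g w • (mono ((w : lam I) : ℕ × ℕ × ℕ) : R3 K)) s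
    rw [qmap_apply] at this
    rw [this, ← hg]
    exact Finset.sum_congr rfl fun w _ => (qmap I).map_smul _ _
  by_contra hgi
  rw [h.mem_iff] at h1
  have hmem : ex (i : ℕ × ℕ × ℕ) ∈ (∑ w ∈ s, g w • (mono (w : ℕ × ℕ × ℕ) : R3 K)).support := by
    rw [MvPolynomial.mem_support_iff, coeff_sum, Finset.sum_eq_single i]
    · rw [coeff_smul, mono_eq, coeff_monomial, if_pos rfl, smul_eq_mul, mul_one]
      exact hgi
    · intro w _ hw
      rw [coeff_smul, mono_eq, coeff_monomial, if_neg, smul_zero]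
      intro hh
      exact hw (Subtype.ext (ex_injective hh))
    · intro h; exact absurd hi h
  have := h1 _ hmem
  rw [← mono_eq] at this
  exact i.2 this

lemma span_top {I : Ideal (R3 K)} :
    ⊤ ≤ Submodule.span K
      (Set.range (fun w : lam I => Ideal.Quotient.mk I (mono (w : ℕ × ℕ × ℕ) : R3 K))) := by
  rintro a -
  obtain ⟨f, rfl⟩ := Ideal.Quotient.mk_surjective a
  induction f using MvPolynomial.induction_on' with
  | monomial u c =>
    have e : (monomial u c : R3 K) = c • mono (u 0, u 1, u 2) := by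
      rw [mono_eq, ex_inv, smul_monomial, smul_eq_mul, mul_one]
    rw [e]
    have e2 : Ideal.Quotient.mk I (c • (mono (u 0, u 1, u 2) : R3 K)) =
      c • Ideal.Quotient.mk I (mono (u 0, u 1, u 2)) := (qmap I).map_smul _ _
    rw [e2]
    apply Submodule.smul_mem
    by_cases hm : (mono (u 0, u 1, u 2) : R3 K) ∈ I
    · rw [Ideal.Quotient.eq_zero_iff_mem.2 hm]; exact Submodule.zero_mem _
    · exact Submodule.subset_span ⟨⟨_, hm⟩, rfl⟩
  | add p q hp hq => rw [map_add]; exact Submodule.add_mem _ hp hq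

/-- The monomial basis of `R ⧸ I`. -/
noncomputable def mbas {I : Ideal (R3 K)} (h : IsMono I) : Basis (lam I) K (R3 K ⧸ I) :=
  Basis.mk (linIndep h) span_top

lemma mbas_apply {I : Ideal (R3 K)} (h : IsMono I) (w : lam I) :
    mbas h w = Ideal.Quotient.mk I (mono (w : ℕ × ℕ × ℕ)) := by
  simp [mbas]

lemma lam_finite {I : Ideal (R3 K)} (h : IsMono I) [Module.Finite K (R3 K ⧸ I)] :
    (lam I).Finite := Module.Finite.finite_basis (mbas h)

lemma finrank_eq_card {I : Ideal (R3 K)} (h : IsMono I) :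
    finrank K (R3 K ⧸ I) = Nat.card (lam I) := Module.finrank_eq_nat_card_basis (mbas h)

end Pool.Agent.TH205.Hilb
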