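import Pool.Agent.TH205.Hilb.QuadBound

/-!
# Adding a reduced point to a finite subscheme of affine 3-space
-/

open Module MvPolynomial

namespace Pool.Agent.TH205.Hilb

variable {K : Type*} [Field K]

instance homFinite (J : Ideal (R3 K)) [Module.Finite K (R3 K ⧸ J)] :
    Module.Finite K (J →ₗ[R3 K] (R3 K ⧸ J)) := by
  classical
  obtain ⟨s, hs⟩ := (Submodule.fg_top J).2 (IsNoetherian.noetherian J)
  let f : (J →ₗ[R3 K] (R3 K ⧸ J)) →ₗ[K] (s → (R3 K ⧸ J)) :=
    { toFun := fun φ i => φ (i : J)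
      map_add' := fun _ _ => rfl
      map_smul' := fun _ _ => rfl }
  apply FiniteDimensional.of_injective f
  intro φ ψ h
  apply LinearMap.ext_on hs
  intro x hx
  exact congrFun h ⟨x, hx⟩

/-- The point `(t,0,0)`. -/
def pt (t : K) : Fin 3 → K := ![t, 0, 0]

/-- The maximal ideal of the point `(t,0,0)`. -/
noncomputable def mpt (t : K) : Ideal (R3 K) := RingHom.ker (eval (pt t))

lemma mem_mpt {t : K} {f : R3 K} : f ∈ mpt t ↔ eval (pt t) f = 0 := RingHom.mem_ker

lemma exists_unit [Infinite K] (I : Ideal (R3 K)) [Module.Finite K (R3 K ⧸ I)] :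
    ∃ (t : K) (e : R3 K), e ∈ mpt t ∧ 1 - e ∈ I := by
  obtain ⟨t, ht⟩ := (Module.End.finite_hasEigenvalue (mop I (X 0))).infinite_compl.nonempty
  have hinj : Function.Injective
      ((mop I (X 0) - algebraMap K (Module.End K (R3 K ⧸ I)) t : Module.End K (R3 K ⧸ I))) := by
    rw [← LinearMap.ker_eq_bot]
    by_contra hne
    apply ht
    show Module.End.HasEigenvalue (mop I (X 0)) t
    rw [Module.End.hasEigenvalue_iff, Module.End.eigenspace_def]
    exact hne
  have hsurj := LinearMap.injective_iff_surjective.1 hinj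
  obtain ⟨a, ha⟩ := hsurj 1
  obtain ⟨q, rfl⟩ := Ideal.Quotient.mk_surjective a
  refine ⟨t, (X 0 - C t) * q, ?_, ?_⟩
  · rw [mem_mpt]; simp [pt]
  · have hs : t • Ideal.Quotient.mk I q = Ideal.Quotient.mk I (C t) * Ideal.Quotient.mk I q := by
      rw [← map_mul, ← smul_eq_C_mul]
      exact ((qmap I).map_smul t q).symm
    rw [← Ideal.Quotient.eq_zero_iff_mem, map_sub, sub_eq_zero, map_one, ← ha, map_mul, map_sub,
      sub_mul, LinearMap.sub_apply, mop_apply, Module.algebraMap_end_apply, hs]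

section AddPoint

variable (I : Ideal (R3 K)) {t : K} {e : R3 K}

lemma emul_mem (he : e ∈ mpt t) {f : R3 K} (hf : f ∈ I) : e * f ∈ I ⊓ mpt t :=
  ⟨I.mul_mem_left _ hf, (mpt t).mul_mem_right _ he⟩

/-- `R/I → R/(I ∩ m)`, multiplication by `e`. -/
noncomputable def iota (he : e ∈ mpt t) : (R3 K ⧸ I) →ₗ[R3 K] (R3 K ⧸ (I ⊓ mpt t)) :=
  Submodule.mapQ I (I ⊓ mpt t) (LinearMap.mulLeft (R3 K) e) (fun _ hf => emul_mem I he hf)

lemma iota_mk (he : e ∈ mpt t) (r : R3 K) :
    iota I he (Ideal.Quotient.mk I r) = Ideal.Quotient.mk (I ⊓ mpt t) (e * r) := rfl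

lemma eval_pderiv_mul (i : Fin 3) (r : R3 K) {f : R3 K} (hf : f ∈ mpt t) :
    eval (pt t) (pderiv i (r * f)) = eval (pt t) r * eval (pt t) (pderiv i f) := by
  rw [Derivation.leibniz, map_add, smul_eq_mul, smul_eq_mul, map_mul, map_mul, mem_mpt.1 hf,
    zero_mul, add_zero]

/-- The derivation homs `I ∩ m → R/(I ∩ m)`. -/
noncomputable def del (h1 : 1 - e ∈ I) (i : Fin 3) :
    (I ⊓ mpt t : Ideal (R3 K)) →ₗ[R3 K] (R3 K ⧸ (I ⊓ mpt t)) where
  toFun f := Ideal.Quotient.mk _ (C (eval (pt t) (pderiv i (f : R3 K))) * (1 - e))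
  map_add' f g := by
    rw [← map_add]
    congr 1
    simp only [Submodule.coe_add, map_add]
    ring
  map_smul' r f := by
    have e1 : r • (Ideal.Quotient.mk (I ⊓ mpt t) (C (eval (pt t) (pderiv i (f : R3 K))) * (1 - e)))
        = Ideal.Quotient.mk (I ⊓ mpt t) (r * (C (eval (pt t) (pderiv i (f : R3 K))) * (1 - e))) := rfl
    rw [RingHom.id_apply, e1, Ideal.Quotient.mk_eq_mk_iff_sub_mem]
    have e2 : ((r • f : (I ⊓ mpt t : Ideal (R3 K))) : R3 K) = r * (f : R3 K) := rfl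
    rw [e2, eval_pderiv_mul i r f.2.2]
    have e3 : C (eval (pt t) r * eval (pt t) (pderiv i (f : R3 K))) * (1 - e) -
        r * (C (eval (pt t) (pderiv i (f : R3 K))) * (1 - e)) =
        (C (eval (pt t) r) - r) * C (eval (pt t) (pderiv i (f : R3 K))) * (1 - e) := by
      rw [C_mul]; ring
    rw [e3]
    refine ⟨I.mul_mem_left _ h1, ?_⟩
    rw [mul_assoc]
    apply (mpt t).mul_mem_right
    rw [mem_mpt]
    simp

lemma del_apply (h1 : 1 - e ∈ I) (i : Fin 3) (f : (I ⊓ mpt t : Ideal (R3 K))) :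
    del I h1 i f = Ideal.Quotient.mk _ (C (eval (pt t) (pderiv i (f : R3 K))) * (1 - e)) := rfl

/-- The map from tangent vectors at `I` and at the point to tangent vectors at `I ∩ m`. -/
noncomputable def theta (he : e ∈ mpt t) (h1 : 1 - e ∈ I) :
    ((I →ₗ[R3 K] (R3 K ⧸ I)) × (Fin 3 → K)) →ₗ[K]
      ((I ⊓ mpt t : Ideal (R3 K)) →ₗ[R3 K] (R3 K ⧸ (I ⊓ mpt t))) where
  toFun q := (iota I he) ∘ₗ q.1 ∘ₗ (Submodule.inclusion inf_le_left) +
    ∑ i, q.2 i • del I h1 i
  map_add' a b := by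
    simp only [Prod.fst_add, Prod.snd_add, Pi.add_apply, add_smul, Finset.sum_add_distrib,
      LinearMap.add_comp, LinearMap.comp_add]
    abel
  map_smul' c a := by
    simp only [Prod.smul_fst, Prod.smul_snd, Pi.smul_apply, smul_add, Finset.smul_sum,
      RingHom.id_apply, smul_assoc]
    congr 1
    refine LinearMap.ext fun x => ?_
    exact (iota I he).map_smul_of_tower c _


lemma theta_apply (he : e ∈ mpt t) (h1 : 1 - e ∈ I) (q) (f : (I ⊓ mpt t : Ideal (R3 K))) :
    theta I he h1 q f = iota I he (q.1 ⟨(f : R3 K), f.2.1⟩) +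
      ∑ i, q.2 i • (Ideal.Quotient.mk (I ⊓ mpt t)
        (C (eval (pt t) (pderiv i (f : R3 K))) * (1 - e)) : R3 K ⧸ (I ⊓ mpt t)) := by
  show (iota I he) (q.1 (Submodule.inclusion inf_le_left f)) + (∑ i, q.2 i • del I h1 i) f = _
  rw [LinearMap.sum_apply]
  rfl

/-- projection `R/(I ∩ m) → R/I`. -/
noncomputable def prI (I : Ideal (R3 K)) (t : K) : (R3 K ⧸ (I ⊓ mpt t)) →+* (R3 K ⧸ I) :=
  Ideal.Quotient.factor inf_le_left

lemma prI_mk (r : R3 K) : prI I t (Ideal.Quotient.mk _ r) = Ideal.Quotient.mk I r :=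
  Ideal.Quotient.factor_mk _ _

lemma mk_e (h1 : 1 - e ∈ I) : Ideal.Quotient.mk I e = 1 := by
  have := Ideal.Quotient.eq_zero_iff_mem.2 h1
  rw [map_sub, map_one, sub_eq_zero] at this
  exact this.symm

lemma prI_iota (he : e ∈ mpt t) (h1 : 1 - e ∈ I) (a : R3 K ⧸ I) : prI I t (iota I he a) = a := by
  obtain ⟨r, rfl⟩ := Ideal.Quotient.mk_surjective a
  rw [iota_mk, prI_mk, map_mul, mk_e I h1, one_mul]

lemma smul_mk (J : Ideal (R3 K)) (c : K) (r : R3 K) :
    c • (Ideal.Quotient.mk J r : R3 K ⧸ J) = Ideal.Quotient.mk J (C c * r) := by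
  rw [← smul_eq_C_mul]
  exact ((qmap J).map_smul c r).symm

lemma theta_injective (he : e ∈ mpt t) (h1 : 1 - e ∈ I) : Function.Injective (theta I he h1) := by
  have key : ∀ q, theta I he h1 q = 0 → q = 0 := by
    intro q hq
    have hφ : q.1 = 0 := by
      refine LinearMap.ext fun a => ?_
      have h2 := LinearMap.congr_fun hq ⟨e * (a : R3 K), emul_mem I he a.2⟩
      rw [theta_apply] at h2
      have h3 := congrArg (prI I t) h2
      rw [map_add, prI_iota I he h1, map_sum, LinearMap.zero_apply, map_zero] at h3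
      have h4 : ∀ i : Fin 3, prI I t (q.2 i • (Ideal.Quotient.mk (I ⊓ mpt t)
        (C (eval (pt t) (pderiv i (e * (a : R3 K)))) * (1 - e)) : R3 K ⧸ (I ⊓ mpt t))) = 0 := by
        intro i
        rw [smul_mk, prI_mk, Ideal.Quotient.eq_zero_iff_mem]
        exact I.mul_mem_left _ (I.mul_mem_left _ h1)
      rw [Finset.sum_eq_zero (fun i _ => h4 i), add_zero] at h3
      have h5 : (⟨e * (a : R3 K), (emul_mem I he a.2).1⟩ : I) = e • a := rfl
      rw [h5, map_smul] at h3
      have h6 : e • q.1 a = Ideal.Quotient.mk I e * q.1 a := rfl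
      rw [h6, mk_e I h1, one_mul] at h3
      exact h3
    have hα : q.2 = 0 := by
      funext i
      have hev : eval (pt t) (1 - e) = 1 := by
        rw [map_sub, map_one, mem_mpt.1 he, sub_zero]
      have hm : (1 - e) * (X i - C (pt t i)) ∈ I ⊓ mpt t := by
        refine ⟨I.mul_mem_right _ h1, mem_mpt.2 ?_⟩
        rw [map_mul]
        simp
      have h2 := LinearMap.congr_fun hq ⟨_, hm⟩
      rw [theta_apply, hφ, LinearMap.zero_apply, map_zero, zero_add, LinearMap.zero_apply] at h2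
      have h4 : ∀ j : Fin 3, eval (pt t) (pderiv j ((1 - e) * (X i - C (pt t i)))) =
          if i = j then 1 else 0 := by
        intro j
        rw [eval_pderiv_mul j (1 - e) (f := X i - C (pt t i)) (by rw [mem_mpt]; simp), hev, one_mul,
          map_sub, pderiv_C, sub_zero, pderiv_X, Pi.single_apply]
        split_ifs with h
        · exact map_one _
        · exact map_zero _
      rw [Finset.sum_eq_single i] at h2
      · rw [h4, if_pos rfl, C_1, one_mul, smul_mk, Ideal.Quotient.eq_zero_iff_mem] at h2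
        have h5 := mem_mpt.1 h2.2
        rw [map_mul, hev, eval_C, mul_one] at h5
        exact h5
      · intro j _ hj
        rw [h4, if_neg (Ne.symm hj), C_0, zero_mul, map_zero, smul_zero]
      · intro h; exact absurd (Finset.mem_univ i) h
    exact Prod.ext hφ hα
  intro a b hab
  have := key (a - b) (by rw [map_sub, hab, sub_self])
  exact sub_eq_zero.1 this

/-- `R/(I ∩ m) → R/I × K`. -/
noncomputable def spl (I : Ideal (R3 K)) (t : K) :
    (R3 K ⧸ (I ⊓ mpt t)) →ₗ[K] (R3 K ⧸ I) × K :=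
  (Ideal.Quotient.liftₐ (I ⊓ mpt t)
    ((Ideal.Quotient.mkₐ K I).prod (aeval (pt t)))
    (fun f hf => by
      rw [AlgHom.prod_apply, Prod.mk_eq_zero]
      refine ⟨Ideal.Quotient.eq_zero_iff_mem.2 hf.1, ?_⟩
      have := mem_mpt.1 hf.2
      rwa [← coe_aeval_eq_eval] at this)).toLinearMap

lemma spl_mk (r : R3 K) : spl I t (Ideal.Quotient.mk _ r) =
    (Ideal.Quotient.mk I r, eval (pt t) r) := by
  have h : aeval (pt t) r = eval (pt t) r := by rw [← coe_aeval_eq_eval]; rfl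
  rw [← h]; rfl

lemma spl_injective : Function.Injective (spl I t) := by
  intro a b hab
  obtain ⟨r, rfl⟩ := Ideal.Quotient.mk_surjective a
  obtain ⟨s, rfl⟩ := Ideal.Quotient.mk_surjective b
  rw [spl_mk, spl_mk, Prod.mk.injEq] at hab
  rw [Ideal.Quotient.mk_eq_mk_iff_sub_mem]
  refine ⟨(Ideal.Quotient.mk_eq_mk_iff_sub_mem _ _).1 hab.1, mem_mpt.2 ?_⟩
  rw [map_sub, hab.2, sub_self]

lemma spl_surjective (he : e ∈ mpt t) (h1 : 1 - e ∈ I) : Function.Surjective (spl I t) := by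
  rintro ⟨a, c⟩
  obtain ⟨r, rfl⟩ := Ideal.Quotient.mk_surjective a
  refine ⟨Ideal.Quotient.mk _ (e * r + (1 - e) * C c), ?_⟩
  rw [spl_mk, Prod.mk.injEq]
  constructor
  · rw [map_add, map_mul, map_mul, mk_e I h1, one_mul, Ideal.Quotient.eq_zero_iff_mem.2 h1,
      zero_mul, add_zero]
  · rw [map_add, map_mul, map_mul, mem_mpt.1 he, map_sub, map_one, mem_mpt.1 he]
    simp

end AddPoint

/-- Adding one point raises the tangent dimension by at least `3`. -/
theorem exists_add_point [Infinite K] (I : Ideal (R3 K)) [Module.Finite K (R3 K ⧸ I)] :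
    ∃ J : Ideal (R3 K), Module.Finite K (R3 K ⧸ J) ∧
      finrank K (R3 K ⧸ J) = finrank K (R3 K ⧸ I) + 1 ∧
      finrank K (I →ₗ[R3 K] (R3 K ⧸ I)) + 3 ≤ finrank K (J →ₗ[R3 K] (R3 K ⧸ J)) := by
  obtain ⟨t, e, he, h1⟩ := exists_unit I
  have hfin : Module.Finite K (R3 K ⧸ (I ⊓ mpt t)) :=
    FiniteDimensional.of_injective (spl I t) (spl_injective I)
  refine ⟨I ⊓ mpt t, hfin, ?_, ?_⟩
  · have := (LinearEquiv.ofBijective (spl I t) ⟨spl_injective I, spl_surjective I he h1⟩).finrank_eq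
    rw [this, Module.finrank_prod, Module.finrank_self]
  · have := LinearMap.finrank_le_finrank_of_injective (theta_injective I he h1)
    rw [Module.finrank_prod, Module.finrank_fin_fun] at this
    exact this

/-- Adding `r` points. -/
theorem exists_add_points [Infinite K] (I : Ideal (R3 K)) (hI : Module.Finite K (R3 K ⧸ I))
    (r : ℕ) :
    ∃ J : Ideal (R3 K), Module.Finite K (R3 K ⧸ J) ∧
      finrank K (R3 K ⧸ J) = finrank K (R3 K ⧸ I) + r ∧
      finrank K (I →ₗ[R3 K] (R3 K ⧸ I)) + 3 * r ≤ finrank K (J →ₗ[R3 K] (R3 K ⧸ J)) := by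
  induction r with
  | zero => exact ⟨I, hI, rfl, le_rfl⟩
  | succ r ih =>
    obtain ⟨J, hJ, h1, h2⟩ := ih
    obtain ⟨J', hJ', h1', h2'⟩ := exists_add_point J
    exact ⟨J', hJ', by omega, by omega⟩

end Pool.Agent.TH205.Hilb
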