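import Pool.Agent.TH205.Hilb.MonoIdeal

/-!
# The quadrant bound for the tangent space at a monomial ideal
-/

open Module MvPolynomial

namespace Pool.Agent.TH205.Hilb

variable {K : Type*} [Field K]

lemma mop_mul (I : Ideal (R3 K)) (r s : R3 K) : mop I (r * s) = mop I r * mop I s := by
  refine LinearMap.ext fun a => ?_
  simp only [Module.End.mul_apply, mop_apply, map_mul, mul_assoc]

lemma mop_one (I : Ideal (R3 K)) : mop I (1 : R3 K) = 1 := by
  refine LinearMap.ext fun a => ?_
  simp only [mop_apply, map_one, one_mul, Module.End.one_apply]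

lemma mop_pow (I : Ideal (R3 K)) (r : R3 K) (n : ℕ) : mop I (r ^ n) = (mop I r) ^ n := by
  induction n with
  | zero => rw [pow_zero, pow_zero, mop_one]
  | succ n ih => rw [pow_succ, pow_succ, mop_mul, ih]

lemma cent_commute (I : Ideal (R3 K)) {g : Module.End K (R3 K ⧸ I)}
    (hg : g ∈ cent (mop I (X 1)) (mop I (X 2))) (b c : ℕ) (a : R3 K ⧸ I) :
    g (Ideal.Quotient.mk I (mono (0, b, c)) * a) = Ideal.Quotient.mk I (mono (0, b, c)) * g a := by
  rw [mem_cent] at hg
  have h1 : Commute g (mop I (X 1)) := hg.1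
  have h2 : Commute g (mop I (X 2)) := hg.2
  have e : mop I (mono (0, b, c)) = (mop I (X 1)) ^ b * (mop I (X 2)) ^ c := by
    rw [← mop_pow, ← mop_pow, ← mop_mul]
    congr 1
    simp [mono]
  have h3 : Commute g (mop I (mono (0, b, c))) := by
    rw [e]
    exact (h1.pow_right b).mul_right (h2.pow_right c)
  have := LinearMap.congr_fun h3.eq a
  simpa only [Module.End.mul_apply, mop_apply] using this

lemma card_le_range {I : Ideal (R3 K)} (h : IsMono I) [Module.Finite K (R3 K ⧸ I)]
    (L : Finset (ℕ × ℕ × ℕ)) (hL : ∀ w, w ∈ L ↔ (mono w : R3 K) ∉ I) (y z : ℕ) :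
    (L.filter (fun w => (w.1, w.2.1 + y, w.2.2 + z) ∈ L)).card ≤
      finrank K (LinearMap.range (mop I (mono (0, y, z)))) := by
  classical
  set S := L.filter (fun w => (w.1, w.2.1 + y, w.2.2 + z) ∈ L) with hS
  have hS' : ∀ w : S, (((w : ℕ × ℕ × ℕ).1, (w : ℕ × ℕ × ℕ).2.1 + y, (w : ℕ × ℕ × ℕ).2.2 + z) :
      ℕ × ℕ × ℕ) ∈ lam I := by
    intro w
    have := (Finset.mem_filter.1 w.2).2
    exact (hL _).1 this
  let f : S → lam I := fun w => ⟨_, hS' w⟩
  have hf : Function.Injective f := by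
    intro a b hab
    have := congrArg (fun u : lam I => (u : ℕ × ℕ × ℕ)) hab
    simp only [f, Prod.mk.injEq, Nat.add_right_cancel_iff] at this
    exact Subtype.ext (Prod.ext this.1 (Prod.ext this.2.1 this.2.2))
  have hli := (linIndep h).comp f hf
  let v : S → LinearMap.range (mop I (mono (0, y, z))) := fun w =>
    ⟨Ideal.Quotient.mk I (mono (f w : ℕ × ℕ × ℕ)), ⟨Ideal.Quotient.mk I (mono (w : ℕ × ℕ × ℕ)), by
      rw [mop_apply, ← map_mul, mono_mul]
      congr 2
      simp only [f, Prod.mk_add_mk, zero_add]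
      ext <;> simp [add_comm]⟩⟩
  have hv : LinearIndependent K v := by
    apply LinearIndependent.of_comp (LinearMap.range (mop I (mono (0, y, z)))).subtype
    exact hli
  have := hv.fintype_card_le_finrank
  rwa [Fintype.card_coe] at this

/-- The quadrant bound. -/
theorem tangent_le {I : Ideal (R3 K)} (h : IsMono I) [Module.Finite K (R3 K ⧸ I)]
    (L : Finset (ℕ × ℕ × ℕ)) (hL : ∀ w, w ∈ L ↔ (mono w : R3 K) ∉ I)
    (p : ℕ) (hp : (mono (p, 0, 0) : R3 K) ∈ I) (y z : ℕ → ℕ)
    (hyz : ∀ i < p, (mono (i, y i, z i) : R3 K) ∈ I) :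
    finrank K (I →ₗ[R3 K] (R3 K ⧸ I)) +
      2 * ∑ i ∈ Finset.range p, (L.filter (fun w => (w.1, w.2.1 + y i, w.2.2 + z i) ∈ L)).card ≤
      L.card + 2 * (p * L.card) := by
  classical
  have hl : finrank K (R3 K ⧸ I) = L.card := by
    rw [finrank_eq_card h]
    have : lam I = (L : Set (ℕ × ℕ × ℕ)) := by
      ext w; exact (hL w).symm
    rw [this, Nat.card_coe_set_eq, Set.ncard_coe_finset]
  have h0 := finrank_hom_le I
  -- the evaluation map
  have hker : ∀ (g : cent (mop I (X 1)) (mop I (X 2))) (i : Fin p),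
      (g : Module.End K (R3 K ⧸ I)) (Ideal.Quotient.mk I (mono ((i : ℕ), 0, 0))) ∈
        LinearMap.ker (mop I (mono (0, y i, z i))) := by
    intro g i
    rw [LinearMap.mem_ker, mop_apply, ← cent_commute I g.2, ← map_mul, mono_mul]
    have : ((0, y i, z i) : ℕ × ℕ × ℕ) + ((i : ℕ), 0, 0) = ((i : ℕ), y i, z i) := by
      ext <;> simp
    rw [this, Ideal.Quotient.eq_zero_iff_mem.2 (hyz i i.2), map_zero]
  let ev : cent (mop I (X 1)) (mop I (X 2)) →ₗ[K]
      ((i : Fin p) → LinearMap.ker (mop I (mono (0, y i, z i)))) :=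
    LinearMap.pi fun i => LinearMap.codRestrict _
      ((LinearMap.applyₗ (Ideal.Quotient.mk I (mono ((i : ℕ), 0, 0)))) ∘ₗ
        (cent (mop I (X 1)) (mop I (X 2))).subtype) (fun g => hker g i)
  have hinj : Function.Injective ev := by
    intro g g' hgg
    have hi : ∀ i, i < p → (g : Module.End K (R3 K ⧸ I)) (Ideal.Quotient.mk I (mono (i, 0, 0))) =
        (g' : Module.End K (R3 K ⧸ I)) (Ideal.Quotient.mk I (mono (i, 0, 0))) := by
      intro i hi
      have := congrFun hgg ⟨i, hi⟩
      exact congrArg Subtype.val this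
    apply Subtype.ext
    apply (mbas h).ext
    rintro ⟨⟨a, b, c⟩, hw⟩
    rw [mbas_apply]
    by_cases ha : a < p
    · have e : (mono (a, b, c) : R3 K) = mono (0, b, c) * mono (a, 0, 0) := by
        rw [mono_mul]; congr 1; ext <;> simp
      show (g : Module.End K (R3 K ⧸ I)) (Ideal.Quotient.mk I (mono (a, b, c))) =
        (g' : Module.End K (R3 K ⧸ I)) (Ideal.Quotient.mk I (mono (a, b, c)))
      rw [e, map_mul, cent_commute I g.2, cent_commute I g'.2, hi a ha]
    · exfalso
      apply hw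
      have e : (mono (a, b, c) : R3 K) = mono (a - p, b, c) * mono (p, 0, 0) := by
        rw [mono_mul]; congr 1; ext <;> simp; omega
      show (mono (a, b, c) : R3 K) ∈ I
      rw [e]
      exact Ideal.mul_mem_left _ _ hp
  have h1 := LinearMap.finrank_le_finrank_of_injective hinj
  rw [Module.finrank_pi_fintype] at h1
  have h2 : ∀ i : Fin p, finrank K (LinearMap.ker (mop I (mono (0, y i, z i)))) +
      (L.filter (fun w => (w.1, w.2.1 + y i, w.2.2 + z i) ∈ L)).card ≤ L.card := by
    intro i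
    have h3 := LinearMap.finrank_range_add_finrank_ker (mop I (mono (0, y i, z i)))
    have h4 := card_le_range h L hL (y i) (z i)
    omega
  have h5 : ∑ i : Fin p, finrank K (LinearMap.ker (mop I (mono (0, y i, z i)))) +
      ∑ i : Fin p, (L.filter (fun w => (w.1, w.2.1 + y i, w.2.2 + z i) ∈ L)).card ≤ p * L.card := by
    rw [← Finset.sum_add_distrib]
    calc _ ≤ ∑ i : Fin p, L.card := Finset.sum_le_sum fun i _ => h2 i
      _ = p * L.card := by simp
  rw [Finset.sum_range]
  omega

end Pool.Agent.TH205.Hilb
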