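import Pool.Agent.TH205.Hilb.Centralizer

/-!
# `T(I) ≤ l + 2 dim End_{k[y,z]}(R/I)`
-/

open Module LinearMap MvPolynomial

namespace Pool.Agent.TH205.Hilb

variable {K : Type*} [Field K]

/-- Polynomials in three variables. -/
abbrev R3 (K : Type*) [Field K] := MvPolynomial (Fin 3) K

/-- Multiplication by (the class of) `t` on `R ⧸ I`. -/
noncomputable def mop (I : Ideal (R3 K)) (t : R3 K) : Module.End K (R3 K ⧸ I) :=
  LinearMap.mulLeft K (Ideal.Quotient.mk I t)

@[simp] lemma mop_apply (I : Ideal (R3 K)) (t : R3 K) (a : R3 K ⧸ I) :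
    mop I t a = Ideal.Quotient.mk I t * a := rfl

/-- quotient map as `K`-linear map -/
noncomputable def qmap (I : Ideal (R3 K)) : R3 K →ₗ[K] (R3 K ⧸ I) :=
  (Ideal.Quotient.mkₐ K I).toLinearMap

@[simp] lemma qmap_apply (I : Ideal (R3 K)) (r : R3 K) : qmap I r = Ideal.Quotient.mk I r := rfl

lemma qmap_surjective (I : Ideal (R3 K)) : Function.Surjective (qmap I) :=
  Ideal.Quotient.mk_surjective

/-- a section -/
noncomputable def sec (I : Ideal (R3 K)) : (R3 K ⧸ I) →ₗ[K] R3 K :=
  (LinearMap.exists_rightInverse_of_surjective (qmap I)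
    (LinearMap.range_eq_top.2 (qmap_surjective I))).choose

lemma sec_spec (I : Ideal (R3 K)) (a : R3 K ⧸ I) : Ideal.Quotient.mk I (sec I a) = a := by
  have := (LinearMap.exists_rightInverse_of_surjective (qmap I)
    (LinearMap.range_eq_top.2 (qmap_surjective I))).choose_spec
  exact LinearMap.congr_fun this a

/-- retraction onto `I` -/
noncomputable def retr (I : Ideal (R3 K)) : R3 K →ₗ[K] I where
  toFun r := ⟨r - sec I (Ideal.Quotient.mk I r), by
    rw [← Ideal.Quotient.eq_zero_iff_mem, map_sub, sec_spec, sub_self]⟩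
  map_add' a b := by
    apply Subtype.ext
    simp only [map_add, Submodule.coe_add]
    ring
  map_smul' c a := by
    apply Subtype.ext
    have : Ideal.Quotient.mk I (c • a) = c • Ideal.Quotient.mk I a := (qmap I).map_smul c a
    simp only [this, map_smul, RingHom.id_apply, Submodule.coe_smul_of_tower, smul_sub]

lemma retr_of_mem (I : Ideal (R3 K)) (f : I) : retr I f = f := by
  apply Subtype.ext
  show (f : R3 K) - sec I (Ideal.Quotient.mk I f) = f
  rw [Ideal.Quotient.eq_zero_iff_mem.2 f.2, map_zero, sub_zero]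

/-- `(φ, g) ↦ φ ∘ retr + g ∘ π`. -/
noncomputable def PhiL (I : Ideal (R3 K)) :
    ((I →ₗ[R3 K] (R3 K ⧸ I)) × Module.End K (R3 K ⧸ I)) →ₗ[K] (R3 K →ₗ[K] (R3 K ⧸ I)) where
  toFun q := (q.1.restrictScalars K) ∘ₗ (retr I) + q.2 ∘ₗ (qmap I)
  map_add' a b := by
    refine LinearMap.ext fun r => ?_
    simp only [Prod.fst_add, Prod.snd_add, LinearMap.add_apply, LinearMap.comp_apply,
      LinearMap.restrictScalars_apply]
    abel
  map_smul' c a := by
    refine LinearMap.ext fun r => ?_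
    simp only [Prod.smul_fst, Prod.smul_snd, LinearMap.add_apply, LinearMap.comp_apply,
      LinearMap.restrictScalars_apply, LinearMap.smul_apply, RingHom.id_apply, smul_add]

lemma PhiL_apply (I : Ideal (R3 K)) (q) (r : R3 K) :
    PhiL I q r = q.1 (retr I r) + q.2 (Ideal.Quotient.mk I r) := rfl

lemma PhiL_of_mem (I : Ideal (R3 K)) (q) (f : I) : PhiL I q f = q.1 f := by
  rw [PhiL_apply, retr_of_mem, Ideal.Quotient.eq_zero_iff_mem.2 f.2, map_zero, add_zero]

/-- The commutator with multiplication by `t`, transported to `R ⧸ I`. -/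
noncomputable def Dbar (I : Ideal (R3 K)) (t : R3 K) :
    (R3 K →ₗ[K] (R3 K ⧸ I)) →ₗ[K] Module.End K (R3 K ⧸ I) where
  toFun F := (F ∘ₗ (LinearMap.mulLeft K t) - (mop I t) ∘ₗ F) ∘ₗ sec I
  map_add' a b := by
    refine LinearMap.ext fun r => ?_
    simp only [LinearMap.add_apply, LinearMap.comp_apply, LinearMap.sub_apply, map_add]
    abel
  map_smul' c a := by
    refine LinearMap.ext fun r => ?_
    simp only [LinearMap.comp_apply, LinearMap.sub_apply, LinearMap.smul_apply,
      RingHom.id_apply, smul_sub, map_smul]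

lemma Dbar_mk (I : Ideal (R3 K)) (t : R3 K) (q) (r : R3 K) :
    Dbar I t (PhiL I q) (Ideal.Quotient.mk I r) =
      PhiL I q (t * r) - Ideal.Quotient.mk I t * PhiL I q r := by
  have hmem : sec I (Ideal.Quotient.mk I r) - r ∈ I := by
    rw [← Ideal.Quotient.eq_zero_iff_mem, map_sub, sec_spec, sub_self]
  have h1 : PhiL I q (t * sec I (Ideal.Quotient.mk I r)) =
      PhiL I q (t * r) + Ideal.Quotient.mk I t * PhiL I q (sec I (Ideal.Quotient.mk I r) - r) := by
    have e : t * sec I (Ideal.Quotient.mk I r) = t * r + t * (sec I (Ideal.Quotient.mk I r) - r) := by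
      ring
    rw [e, map_add]
    congr 1
    have e1 := PhiL_of_mem I q ⟨_, hmem⟩
    have e2 := PhiL_of_mem I q (t • ⟨_, hmem⟩)
    rw [map_smul] at e2
    simp only [Submodule.coe_smul, smul_eq_mul] at e2 e1
    rw [e2, e1]
    rfl
  show PhiL I q (t * sec I (Ideal.Quotient.mk I r)) -
    Ideal.Quotient.mk I t * PhiL I q (sec I (Ideal.Quotient.mk I r)) = _
  rw [h1, map_sub]
  ring

/-- The map `(φ, g) ↦ (X', Y', Z')`. -/
noncomputable def Psi (I : Ideal (R3 K)) :
    ((I →ₗ[R3 K] (R3 K ⧸ I)) × Module.End K (R3 K ⧸ I)) →ₗ[K]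
      (Module.End K (R3 K ⧸ I) × Module.End K (R3 K ⧸ I) × Module.End K (R3 K ⧸ I)) :=
  ((Dbar I (X 0)).prod ((Dbar I (X 1)).prod (Dbar I (X 2)))) ∘ₗ PhiL I

lemma Dbar_comm (I : Ideal (R3 K)) (s t : R3 K) (q) :
    Dbar I s (PhiL I q) * mop I t - mop I t * Dbar I s (PhiL I q) =
      Dbar I t (PhiL I q) * mop I s - mop I s * Dbar I t (PhiL I q) := by
  refine LinearMap.ext fun a => ?_
  obtain ⟨r, rfl⟩ := Ideal.Quotient.mk_surjective a
  simp only [LinearMap.sub_apply, Module.End.mul_apply, mop_apply, ← map_mul, Dbar_mk]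
  simp only [mul_sub]
  rw [show s * (t * r) = t * (s * r) by ring]
  ring

lemma Psi_mem (I : Ideal (R3 K)) (q) :
    Psi I q ∈ defSp (mop I (X 0)) (mop I (X 1)) (mop I (X 2)) :=
  ⟨Dbar_comm I (X 0) (X 1) q, Dbar_comm I (X 0) (X 2) q, Dbar_comm I (X 1) (X 2) q⟩

lemma ker_Psi (I : Ideal (R3 K)) (q) (hq : Psi I q = 0) (r : R3 K) :
    PhiL I q r = Ideal.Quotient.mk I r * PhiL I q 1 := by
  have hX : ∀ i : Fin 3, ∀ r : R3 K, PhiL I q (X i * r) = Ideal.Quotient.mk I (X i) * PhiL I q r := by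
    intro i r
    have h0 : Dbar I (X 0) (PhiL I q) = 0 := congrArg Prod.fst hq
    have h1 : Dbar I (X 1) (PhiL I q) = 0 := congrArg (fun u => u.2.1) hq
    have h2 : Dbar I (X 2) (PhiL I q) = 0 := congrArg (fun u => u.2.2) hq
    have h : Dbar I (X i) (PhiL I q) = 0 := by
      fin_cases i
      · exact h0
      · exact h1
      · exact h2
    have e := Dbar_mk I (X i) q r
    rw [h, LinearMap.zero_apply] at e
    exact (sub_eq_zero.1 e.symm)
  induction r using MvPolynomial.induction_on with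
  | C a =>
    have : (C a : R3 K) = a • 1 := by rw [MvPolynomial.smul_eq_C_mul, mul_one]
    rw [this, map_smul]
    have h2 : Ideal.Quotient.mk I (a • (1 : R3 K)) = a • (1 : R3 K ⧸ I) := by
      have := (qmap I).map_smul a 1
      rw [qmap_apply, qmap_apply, map_one] at this
      exact this
    rw [h2, smul_mul_assoc, one_mul]
  | add p q hp hq => rw [map_add, hp, hq, map_add, add_mul]
  | mul_X p i hp =>
    rw [mul_comm p, hX, hp, map_mul, mul_assoc]

theorem finrank_hom_le (I : Ideal (R3 K)) [FiniteDimensional K (R3 K ⧸ I)] :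
    finrank K (I →ₗ[R3 K] (R3 K ⧸ I)) ≤
      finrank K (R3 K ⧸ I) + 2 * finrank K (cent (mop I (X 1)) (mop I (X 2))) := by
  by_cases hV : Module.Finite K (I →ₗ[R3 K] (R3 K ⧸ I))
  swap
  · rw [Module.finrank_of_not_finite hV]; exact Nat.zero_le _
  have h1 := LinearMap.finrank_range_add_finrank_ker (Psi I)
  have h2 : finrank K (LinearMap.range (Psi I)) ≤
      finrank K (defSp (mop I (X 0)) (mop I (X 1)) (mop I (X 2))) := by
    apply Submodule.finrank_mono
    rintro _ ⟨q, rfl⟩
    exact Psi_mem I q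
  have h3 : finrank K (LinearMap.ker (Psi I)) ≤ finrank K (R3 K ⧸ I) := by
    let f : LinearMap.ker (Psi I) →ₗ[K] (R3 K ⧸ I) :=
      (LinearMap.applyₗ (1 : R3 K)) ∘ₗ (PhiL I) ∘ₗ (LinearMap.ker (Psi I)).subtype
    apply LinearMap.finrank_le_finrank_of_injective (f := f)
    rintro ⟨q, hq⟩ ⟨q', hq'⟩ h
    have h' : PhiL I q 1 = PhiL I q' 1 := h
    have h0 : ∀ r, PhiL I q r = PhiL I q' r := fun r => by
      rw [ker_Psi I q hq r, ker_Psi I q' hq' r, h']
    have hφ : q.1 = q'.1 := by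
      refine LinearMap.ext fun f => ?_
      rw [← PhiL_of_mem I q f, ← PhiL_of_mem I q' f, h0]
    have hg : q.2 = q'.2 := by
      refine LinearMap.ext fun a => ?_
      obtain ⟨r, rfl⟩ := Ideal.Quotient.mk_surjective a
      have := h0 r
      rw [PhiL_apply, PhiL_apply, hφ] at this
      exact add_left_cancel this
    apply Subtype.ext
    exact Prod.ext hφ hg
  have h4 := finrank_defSp_le (mop I (X 0)) (mop I (X 1)) (mop I (X 2))
  have h5 : finrank K ((I →ₗ[R3 K] (R3 K ⧸ I)) × Module.End K (R3 K ⧸ I)) =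
    finrank K (I →ₗ[R3 K] (R3 K ⧸ I)) + finrank K (Module.End K (R3 K ⧸ I)) :=
    Module.finrank_prod
  omega

end Pool.Agent.TH205.Hilb
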